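import Pool.Agent.K3h70.PH.Kst

/-!
# The number of pairs with a given numerator, final form
-/

set_option autoImplicit false

namespace Pool.Agent.K3h70.PH

open Finset Pool.Agent.TH201.PH

theorem arith {n q u : ℝ} (hn : 0 ≤ n) (hq : 1 ≤ q) (hu : 0 ≤ u)
    (h : n ^ 2 ≤ 9 * (q * u) ^ 2 + 4 * n * u) : n ≤ 13 * (q * u) := by
  by_contra hcon
  push Not at hcon
  have h1 : u ≤ q * u := le_mul_of_one_le_left hu hq
  have h2 : 0 ≤ q * u := hu.trans h1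
  nlinarith

/-- the bound for one class -/
theorem class_le {B N K X w Dm : ℕ} (hB : 4 ≤ B) (hN1 : 1 ≤ N) (hK : 32 * K ^ 4 ≤ N)
    (hX : 1 ≤ X) (hw : 1 ≤ w) (hDm : 1 ≤ Dm)
    {T : Finset (ℚ × ℚ)} (h : Cond B N K X w T)
    (hD : ∀ l : ℕ, l ≠ 0 → l ≤ (X * (2 * K) ^ B) ^ 2 → l.divisors.card ≤ Dm) :
    (T.card : ℝ) ≤ 13 * (Real.sqrt ((Dm * Dm * 8 * (2 * B) ^ N.primeFactors.card : ℕ) : ℝ) *
      (Real.sqrt X ^ 3 * ((w : ℝ) ^ 2)⁻¹)) := by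
  obtain ⟨c, hc⟩ : ∃ c : ℕ, c = Dm * Dm * 8 * (2 * B) ^ N.primeFactors.card := ⟨_, rfl⟩
  have hc1 : 1 ≤ c := by
    rw [hc]
    have h1 : 1 ≤ (2 * B) ^ N.primeFactors.card := Nat.one_le_pow _ _ (by omega)
    nlinarith [Nat.mul_le_mul hDm hDm]
  have h1 := energy (by omega) hN1 hK h hD
  have h2 := cauchy h
  rw [← hc] at h1 ⊢
  have h3 : T.card ^ 2 ≤ (X / w ^ B) * (c * ((2 * X + 1) * (2 * X + 1)) +
      T.card * (Nat.sqrt X * 4)) := h2.trans (Nat.mul_le_mul_left _ h1)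
  have h4 : (T.card : ℝ) ^ 2 ≤ ((X / w ^ B : ℕ) : ℝ) * (c * ((2 * X + 1) * (2 * X + 1)) +
      T.card * (Nat.sqrt X * 4)) := by exact_mod_cast h3
  have hX1 : (1 : ℝ) ≤ X := by exact_mod_cast hX
  have hw1 : (1 : ℝ) ≤ w := by exact_mod_cast hw
  obtain ⟨s, hs⟩ : ∃ s : ℝ, s = Real.sqrt X := ⟨_, rfl⟩
  have hs2 : s ^ 2 = X := by rw [hs]; exact Real.sq_sqrt (by linarith)
  have hs0 : 0 ≤ s := by rw [hs]; exact Real.sqrt_nonneg _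
  have hs1 : ((Nat.sqrt X : ℕ) : ℝ) ≤ s := by rw [hs]; exact Real.nat_sqrt_le_real_sqrt
  have hM : ((X / w ^ B : ℕ) : ℝ) ≤ s ^ 2 * (((w : ℝ) ^ 2)⁻¹) ^ 2 := by
    calc ((X / w ^ B : ℕ) : ℝ) ≤ (X : ℝ) / ((w ^ B : ℕ) : ℝ) := Nat.cast_div_le
      _ ≤ (X : ℝ) / (w : ℝ) ^ 4 := by
          push_cast
          apply div_le_div_of_nonneg_left (by linarith) (by positivity)
          exact pow_le_pow_right₀ hw1 hB
      _ = _ := by rw [hs2]; field_simp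
  obtain ⟨q, hq⟩ : ∃ q : ℝ, q = Real.sqrt (c : ℝ) := ⟨_, rfl⟩
  have hc1' : (1 : ℝ) ≤ c := by exact_mod_cast hc1
  have hq2 : q ^ 2 = c := by rw [hq]; exact Real.sq_sqrt (by linarith)
  have hq1 : 1 ≤ q := by rw [hq]; exact Real.one_le_sqrt.2 hc1'
  rw [← hq, ← hs]
  obtain ⟨v, hv⟩ : ∃ v : ℝ, v = ((w : ℝ) ^ 2)⁻¹ := ⟨_, rfl⟩
  rw [← hv] at hM ⊢
  have hv0 : 0 ≤ v := by rw [hv]; positivity
  have hv1 : v ≤ 1 := by
    rw [hv]
    exact inv_le_one_of_one_le₀ (one_le_pow₀ hw1)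
  have hn0 : (0 : ℝ) ≤ T.card := Nat.cast_nonneg _
  refine arith hn0 hq1 (by positivity) ?_
  have h5 : (c : ℝ) * ((2 * X + 1) * (2 * X + 1)) ≤ 9 * q ^ 2 * s ^ 4 := by
    rw [hq2, show s ^ 4 = (s ^ 2) ^ 2 by ring, hs2]
    have : (2 * (X : ℝ) + 1) * (2 * X + 1) ≤ 9 * (X : ℝ) ^ 2 := by nlinarith
    nlinarith
  have h6 : (T.card : ℝ) * (Nat.sqrt X * 4) ≤ 4 * T.card * s := by nlinarith
  calc (T.card : ℝ) ^ 2 ≤ ((X / w ^ B : ℕ) : ℝ) * (c * ((2 * X + 1) * (2 * X + 1)) +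
      T.card * (Nat.sqrt X * 4)) := h4
    _ ≤ (s ^ 2 * v ^ 2) * (9 * q ^ 2 * s ^ 4 + 4 * T.card * s) := by
        apply mul_le_mul hM (add_le_add h5 h6) (by positivity) (by positivity)
    _ = 9 * (q * (s ^ 3 * v)) ^ 2 + 4 * T.card * (s ^ 3 * v) * v := by ring
    _ ≤ 9 * (q * (s ^ 3 * v)) ^ 2 + 4 * T.card * (s ^ 3 * v) := by
        have : 0 ≤ 4 * (T.card : ℝ) * (s ^ 3 * v) := by positivity
        nlinarith

/-- the hypotheses for a set of pairs -/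
structure Cond0 (B N K X : ℕ) (T : Finset (ℚ × ℚ)) : Prop where
  x0 : ∀ t ∈ T, t.1 ≠ 0
  y0 : ∀ t ∈ T, t.2 ≠ 0
  hx : ∀ t ∈ T, H t.1 ≤ X
  hy : ∀ t ∈ T, H t.2 < 2 * K
  hN : ∀ t ∈ T, ((zz B t).num + (zz B t).den).natAbs = N

theorem sum_inv_sq (X : ℕ) : ∑ w ∈ Icc 1 X, ((w : ℝ) ^ 2)⁻¹ ≤ 2 := by
  rcases Nat.eq_zero_or_pos X with h | h
  · subst h; simp
  · have h1 : Icc 1 X = insert 1 (Ioc 1 X) := by
      ext w
      simp only [mem_Icc, mem_insert, mem_Ioc]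
      omega
    rw [h1, sum_insert (by simp)]
    have h2 := sum_Ioc_inv_sq_le_sub (α := ℝ) (k := 1) (n := X) one_ne_zero h
    have h3 : (0 : ℝ) ≤ (X : ℝ)⁻¹ := by positivity
    push_cast at h2 ⊢
    linarith

/-- **The number of pairs with a given numerator.** -/
theorem block {B N K X Dm : ℕ} (hB : 4 ≤ B) (hN1 : 1 ≤ N) (hK : 32 * K ^ 4 ≤ N) (hDm : 1 ≤ Dm)
    {T : Finset (ℚ × ℚ)} (h : Cond0 B N K X T)
    (hD : ∀ l : ℕ, l ≠ 0 → l ≤ (X * (2 * K) ^ B) ^ 2 → l.divisors.card ≤ Dm) :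
    (T.card : ℝ) ≤ 26 * Real.sqrt ((Dm * Dm * 8 * (2 * B) ^ N.primeFactors.card : ℕ) : ℝ) *
      Real.sqrt X ^ 3 := by
  classical
  rcases T.eq_empty_or_nonempty with hE | ⟨t₀, ht₀⟩
  · rw [hE, card_empty, Nat.cast_zero]
    positivity
  have hX : 1 ≤ X := (H_pos t₀.1).trans (h.hx t₀ ht₀)
  have h1 : T.card = ∑ w ∈ Icc 1 X, (T.filter fun t => rt B t.1.den = w).card := by
    apply card_eq_sum_card_fiberwise
    intro t ht
    have e1 : rt B t.1.den ≤ t.1.den := Nat.findGreatest_le _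
    exact mem_coe.2 (mem_Icc.2 ⟨rt_pos t.1.den_pos, e1.trans ((le_max_right _ _).trans (h.hx t ht))⟩)
  rw [h1]
  push_cast
  calc ∑ w ∈ Icc 1 X, ((T.filter fun t => rt B t.1.den = w).card : ℝ)
      ≤ ∑ w ∈ Icc 1 X, 13 * (Real.sqrt ((Dm * Dm * 8 * (2 * B) ^ N.primeFactors.card : ℕ) : ℝ) *
      (Real.sqrt X ^ 3 * ((w : ℝ) ^ 2)⁻¹)) := by
        refine sum_le_sum fun w hw => ?_
        refine class_le hB hN1 hK hX (mem_Icc.1 hw).1 hDm (T := T.filter fun t => rt B t.1.den = w)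
          ⟨fun t ht => h.x0 t (mem_filter.1 ht).1, fun t ht => h.y0 t (mem_filter.1 ht).1,
          fun t ht => h.hx t (mem_filter.1 ht).1, fun t ht => h.hy t (mem_filter.1 ht).1,
          fun t ht => h.hN t (mem_filter.1 ht).1, fun t ht => (mem_filter.1 ht).2⟩ hD
    _ = 13 * (Real.sqrt ((Dm * Dm * 8 * (2 * B) ^ N.primeFactors.card : ℕ) : ℝ) *
      Real.sqrt X ^ 3) * ∑ w ∈ Icc 1 X, ((w : ℝ) ^ 2)⁻¹ := by
        rw [mul_sum]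
        refine sum_congr rfl fun w _ => ?_
        ring
    _ ≤ 13 * (Real.sqrt ((Dm * Dm * 8 * (2 * B) ^ N.primeFactors.card : ℕ) : ℝ) *
      Real.sqrt X ^ 3) * 2 := mul_le_mul_of_nonneg_left (sum_inv_sq X) (by positivity)
    _ = _ := by push_cast; ring

end Pool.Agent.K3h70.PH
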