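import Pool.Agent.K3h70.PH.Block
import Pool.Agent.TH201.PH.Count
import Pool.Agent.H510R2.Div
import Pool.Agent.H785R2.ABC.A345

/-!
# Counting the pairs which violate Philippon's inequality
-/

set_option autoImplicit false

namespace Pool.Agent.K3h70.PH

open Finset Pool.Agent.TH201.PH Pool.Agent.H785R2.ABC

/-- the numerator -/
def nn (B : ℕ) (t : ℚ × ℚ) : ℕ := ((zz B t).num + (zz B t).den).natAbs

theorem nn_eq (B : ℕ) (t : ℚ × ℚ) : nn B t = (t.1 * t.2 ^ B + 1).num.natAbs := by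
  rw [Pool.Agent.H78R2.Phil.num_add_one]
  rfl

/-- one dyadic block -/
theorem dy (B : ℕ) (hB : 4 ≤ B) (δ : ℝ) (hδ : 0 < δ) : ∃ D : ℝ, 0 < D ∧
    ∀ (K : ℕ) (Xf : ℕ → ℝ) (T : Finset (ℚ × ℚ)), 1 ≤ K →
    (∀ t ∈ T, t.1 ≠ 0 ∧ t.2 ≠ 0 ∧ H t.2 < 2 * K ∧ H t.1 ≤ 2 * K ∧ 32 * K ^ 4 ≤ nn B t ∧
      (H t.1 : ℝ) ≤ Xf (nn B t)) →
    (T.card : ℝ) ≤ D * (2 * K : ℝ) ^ δ * ∑ N ∈ T.image (nn B), Real.sqrt (Xf N) ^ 3 := by
  classical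
  have hBr : (4 : ℝ) ≤ B := by exact_mod_cast hB
  obtain ⟨δ₁, hδ₁⟩ : ∃ δ₁ : ℝ, δ₁ = δ / (4 * B + 4) := ⟨_, rfl⟩
  obtain ⟨δ₂, hδ₂⟩ : ∃ δ₂ : ℝ, δ₂ = δ / (B + 2) := ⟨_, rfl⟩
  have hδ₁0 : 0 < δ₁ := by rw [hδ₁]; positivity
  have hδ₂0 : 0 < δ₂ := by rw [hδ₂]; positivity
  obtain ⟨D₁, hD₁, hdiv⟩ := Pool.Agent.H510R2.divisor_bound δ₁ hδ₁0
  obtain ⟨D₂, hD₂, hom⟩ := stmtA1 (2 * B) (by linarith) δ₂ hδ₂0
  refine ⟨26 * (Real.sqrt (8 * D₂) * D₁), by positivity, fun K Xf T hK1 hT => ?_⟩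
  have hKr : (1 : ℝ) ≤ K := by exact_mod_cast hK1
  have h2K : (1 : ℝ) ≤ 2 * K := by linarith
  have h1 : T.card = ∑ N ∈ T.image (nn B), (T.filter fun t => nn B t = N).card :=
    card_eq_sum_card_image _ _
  rw [h1]
  push_cast
  rw [mul_sum]
  refine sum_le_sum fun N hN => ?_
  obtain ⟨t₀, ht₀, hNt⟩ := mem_image.1 hN
  obtain ⟨X, hX⟩ : ∃ X : ℕ, X = min ⌊Xf N⌋₊ (2 * K) := ⟨_, rfl⟩
  have hXf0 : 0 ≤ Xf N := by
    have := (hT t₀ ht₀).2.2.2.2.2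
    rw [hNt] at this
    exact (Nat.cast_nonneg _).trans this
  have hK4 : 32 * K ^ 4 ≤ N := by rw [← hNt]; exact (hT t₀ ht₀).2.2.2.2.1
  have hN1 : 1 ≤ N := by
    have : 1 ≤ K ^ 4 := Nat.one_le_pow _ _ hK1
    omega
  have hcond : Cond0 B N K X (T.filter fun t => nn B t = N) := by
    refine ⟨fun t ht => (hT t (mem_filter.1 ht).1).1, fun t ht => (hT t (mem_filter.1 ht).1).2.1,
      fun t ht => ?_, fun t ht => (hT t (mem_filter.1 ht).1).2.2.1,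
      fun t ht => (mem_filter.1 ht).2⟩
    obtain ⟨g1, g2⟩ := mem_filter.1 ht
    obtain ⟨-, -, -, g3, -, g4⟩ := hT t g1
    rw [hX]
    refine le_min (Nat.le_floor ?_) g3
    rwa [g2] at g4
  obtain ⟨L, hL⟩ : ∃ L : ℝ, L = (2 * K : ℝ) ^ ((2 * B + 2 : ℕ) : ℝ) := ⟨_, rfl⟩
  have hL1 : 1 ≤ L := by rw [hL]; exact Real.one_le_rpow h2K (by positivity)
  obtain ⟨Dm, hDm⟩ : ∃ Dm : ℕ, Dm = ⌊D₁ * L ^ δ₁⌋₊ := ⟨_, rfl⟩
  have hDl : ∀ l : ℕ, l ≠ 0 → (l : ℝ) ≤ L → l.divisors.card ≤ Dm := by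
    intro l hl0 hl
    rw [hDm]
    apply Nat.le_floor
    refine (hdiv l (by omega)).trans ?_
    exact mul_le_mul_of_nonneg_left (Real.rpow_le_rpow (Nat.cast_nonneg _) hl hδ₁0.le) hD₁.le
  have hDm1 : 1 ≤ Dm := by
    have := hDl 1 one_ne_zero (by simpa using hL1)
    simpa using this
  have hDm2 : (Dm : ℝ) ≤ D₁ * L ^ δ₁ := by rw [hDm]; exact Nat.floor_le (by positivity)
  have hD : ∀ l : ℕ, l ≠ 0 → l ≤ (X * (2 * K) ^ B) ^ 2 → l.divisors.card ≤ Dm := by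
    intro l hl0 hl
    refine hDl l hl0 ?_
    have e1 : (X * (2 * K) ^ B) ^ 2 ≤ (2 * K) ^ (2 * B + 2) := by
      have e2 : X ≤ 2 * K := by rw [hX]; exact min_le_right _ _
      calc (X * (2 * K) ^ B) ^ 2 ≤ ((2 * K) * (2 * K) ^ B) ^ 2 :=
            Nat.pow_le_pow_left (Nat.mul_le_mul_right _ e2) 2
        _ = (2 * K) ^ (2 * B + 2) := by ring
    have e3 : (l : ℝ) ≤ (((2 * K) ^ (2 * B + 2) : ℕ) : ℝ) := by exact_mod_cast hl.trans e1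
    rw [hL, Real.rpow_natCast]
    push_cast at e3
    exact e3
  have hb := block hB hN1 hK4 hDm1 hcond hD
  refine hb.trans ?_
  have hNle : (N : ℝ) ≤ (2 * K : ℝ) ^ ((B + 2 : ℕ) : ℝ) := by
    obtain ⟨g1, g2, g3, g4, -, -⟩ := hT t₀ ht₀
    have e1 := num_le t₀.1 t₀.2 g1 g2 B
    rw [← nn_eq, hNt] at e1
    have e2 : N ≤ (2 * K) ^ (B + 2) := by
      calc N ≤ 2 * (H t₀.1 * H t₀.2 ^ B) := e1
        _ ≤ 2 * ((2 * K) * (2 * K) ^ B) :=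
            Nat.mul_le_mul_left _ (Nat.mul_le_mul g4 (Nat.pow_le_pow_left g3.le B))
        _ ≤ (2 * K) * ((2 * K) * (2 * K) ^ B) := Nat.mul_le_mul_right _ (by omega)
        _ = (2 * K) ^ (B + 2) := by ring
    rw [Real.rpow_natCast]
    exact_mod_cast e2
  have hsq : Real.sqrt ((Dm * Dm * 8 * (2 * B) ^ N.primeFactors.card : ℕ) : ℝ) ≤
      Real.sqrt (8 * D₂) * D₁ * (2 * K : ℝ) ^ δ := by
    have e0 : (0 : ℝ) ≤ N := Nat.cast_nonneg _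
    have e1 := hom N hN1
    have e2 : (N : ℝ) ^ δ₂ ≤ (2 * K : ℝ) ^ δ := by
      calc (N : ℝ) ^ δ₂ ≤ ((2 * K : ℝ) ^ ((B + 2 : ℕ) : ℝ)) ^ δ₂ :=
            Real.rpow_le_rpow e0 hNle hδ₂0.le
        _ = (2 * K : ℝ) ^ δ := by
            rw [← Real.rpow_mul (by linarith)]
            congr 1
            rw [hδ₂]
            push_cast
            field_simp
    have e3 : (L ^ δ₁) ^ 2 = (2 * K : ℝ) ^ δ := by
      rw [hL, ← Real.rpow_mul (by linarith), ← Real.rpow_natCast, ← Real.rpow_mul (by linarith)]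
      congr 1
      rw [hδ₁]
      push_cast
      have : (4 * (B : ℝ) + 4) ≠ 0 := by positivity
      field_simp
      ring
    have e4 : ((Dm * Dm * 8 * (2 * B) ^ N.primeFactors.card : ℕ) : ℝ) ≤
        (8 * D₂) * (D₁ * (2 * K : ℝ) ^ δ) ^ 2 := by
      push_cast
      have a1 : (Dm : ℝ) * Dm ≤ (D₁ * L ^ δ₁) * (D₁ * L ^ δ₁) :=
        mul_le_mul hDm2 hDm2 (Nat.cast_nonneg _) (by positivity)
      have a2 : (2 * (B : ℝ)) ^ N.primeFactors.card ≤ D₂ * (2 * K : ℝ) ^ δ :=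
        e1.trans (mul_le_mul_of_nonneg_left e2 hD₂.le)
      calc (Dm : ℝ) * Dm * 8 * (2 * (B : ℝ)) ^ N.primeFactors.card
          ≤ ((D₁ * L ^ δ₁) * (D₁ * L ^ δ₁)) * 8 * (D₂ * (2 * K : ℝ) ^ δ) := by
            apply mul_le_mul _ a2 (by positivity) (by positivity)
            exact mul_le_mul_of_nonneg_right a1 (by norm_num)
        _ = (8 * D₂) * (D₁ ^ 2 * (L ^ δ₁) ^ 2 * (2 * K : ℝ) ^ δ) := by ring
        _ = (8 * D₂) * (D₁ * (2 * K : ℝ) ^ δ) ^ 2 := by rw [e3]; ring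
    calc Real.sqrt ((Dm * Dm * 8 * (2 * B) ^ N.primeFactors.card : ℕ) : ℝ)
        ≤ Real.sqrt ((8 * D₂) * (D₁ * (2 * K : ℝ) ^ δ) ^ 2) := Real.sqrt_le_sqrt e4
      _ = _ := by
          rw [Real.sqrt_mul (by positivity), Real.sqrt_sq (by positivity)]
          ring
  have hs3 : Real.sqrt X ^ 3 ≤ Real.sqrt (Xf N) ^ 3 := by
    apply pow_le_pow_left₀ (Real.sqrt_nonneg _)
    apply Real.sqrt_le_sqrt
    rw [hX]
    calc ((min ⌊Xf N⌋₊ (2 * K) : ℕ) : ℝ) ≤ (⌊Xf N⌋₊ : ℝ) := by exact_mod_cast min_le_left _ _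
      _ ≤ Xf N := Nat.floor_le hXf0
  calc 26 * Real.sqrt ((Dm * Dm * 8 * (2 * B) ^ N.primeFactors.card : ℕ) : ℝ) * Real.sqrt X ^ 3
      ≤ 26 * (Real.sqrt (8 * D₂) * D₁ * (2 * K : ℝ) ^ δ) * Real.sqrt (Xf N) ^ 3 := by
        apply mul_le_mul _ hs3 (by positivity) (by positivity)
        exact mul_le_mul_of_nonneg_left hsq (by norm_num)
    _ = _ := by ring

end Pool.Agent.K3h70.PH
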