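import Pool.Agent.K3h70.PH.Fibre

/-!
# The multiplicative energy of the coefficients
-/

set_option autoImplicit false

namespace Pool.Agent.K3h70.PH

open Finset Pool.Agent.TH201.PH

theorem int_eq {a b : ℤ} (h : a.natAbs = b.natAbs) (ha : a ≠ 0) (hs : 0 < a ↔ 0 < b) : a = b := by
  omega

theorem ratio_pt {B : ℕ} {s : (ℚ × ℚ) × (ℚ × ℚ)} {a₁ a₂ : ℤ} (h2 : s.2.1 ≠ 0) (y2 : s.2.2 ≠ 0)
    (p3 : s.1.1.den = s.2.1.den) (p5 : s.1.1.num = a₁) (p6 : s.2.1.num = a₂) :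
    zz B s.1 = ((a₁ : ℚ) / a₂ * (s.1.2 / s.2.2) ^ B) * zz B s.2 := by
  have ha2 : (a₂ : ℚ) ≠ 0 := by
    rw [← p6]
    exact_mod_cast Rat.num_ne_zero.2 h2
  have e0 : (s.2.1.den : ℚ) ≠ 0 := by exact_mod_cast s.2.1.den_nz
  have e3 : s.1.1 = (a₁ : ℚ) / s.2.1.den := by rw [← p3, ← p5]; exact (Rat.num_div_den _).symm
  have e4 : s.2.1 = (a₂ : ℚ) / s.2.1.den := by rw [← p6]; exact (Rat.num_div_den _).symm
  have e5 : s.1.1 = (a₁ : ℚ) / a₂ * s.2.1 := by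
    rw [e3]
    nth_rewrite 2 [e4]
    field_simp
  unfold zz
  rw [div_pow, e5]
  have e6 : s.2.2 ^ B ≠ 0 := pow_ne_zero _ y2
  field_simp

theorem fibre {B N K X w Dm : ℕ} (hB : 1 ≤ B) (hN1 : 1 ≤ N) {T : Finset (ℚ × ℚ)}
    (h : Cond B N K X w T)
    (hD : ∀ l : ℕ, l ≠ 0 → l ≤ (X * (2 * K) ^ B) ^ 2 → l.divisors.card ≤ Dm) (a₁ a₂ : ℤ) (τ : ℚ)
    (F : Finset ((ℚ × ℚ) × (ℚ × ℚ)))
    (hF : ∀ s ∈ F, (s.1 ∈ T ∧ s.2 ∈ T ∧ s.1.1.den = s.2.1.den ∧ zz B s.1 ≠ zz B s.2) ∧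
      (s.1.1.num = a₁ ∧ s.2.1.num = a₂) ∧ s.1.2 / s.2.2 = τ) : F.card ≤ Dm * Dm * 8 := by
  classical
  obtain ⟨l, hl⟩ : ∃ l : ℚ, l = (a₁ : ℚ) / a₂ * τ ^ B := ⟨_, rfl⟩
  -- the ratio of the points
  have hz : ∀ s ∈ F, zz B s.1 = l * zz B s.2 := by
    intro s hs
    obtain ⟨⟨h1, h2, h3, -⟩, ⟨h5, h6⟩, h7⟩ := hF s hs
    rw [hl, ← h7]
    exact ratio_pt (h.x0 _ h2) (h.y0 _ h2) h3 h5 h6
  rcases F.eq_empty_or_nonempty with hE | ⟨s₀, hs₀⟩
  · rw [hE, card_empty]; exact Nat.zero_le _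
  have hzne : ∀ s ∈ F, zz B s.1 ≠ 0 ∧ zz B s.2 ≠ 0 := fun s hs =>
    ⟨zz_ne (h.x0 _ (hF s hs).1.1) (h.y0 _ (hF s hs).1.1),
      zz_ne (h.x0 _ (hF s hs).1.2.1) (h.y0 _ (hF s hs).1.2.1)⟩
  have hl1 : l ≠ 1 := by
    intro h1
    have h2 := hz s₀ hs₀
    rw [h1, one_mul] at h2
    exact (hF s₀ hs₀).1.2.2.2 h2
  have hl0 : l ≠ 0 := by
    intro h1
    have h2 := hz s₀ hs₀
    rw [h1, zero_mul] at h2
    exact (hzne s₀ hs₀).1 h2
  have hHz : ∀ t ∈ T, H (zz B t) ≤ X * (2 * K) ^ B := by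
    intro t ht
    exact (H_mul_pow _ _ (h.x0 t ht) (h.y0 t ht) B).trans
      (Nat.mul_le_mul (h.hx t ht) (Nat.pow_le_pow_left (h.hy t ht).le B))
  have hHl : H l ≤ (X * (2 * K) ^ B) ^ 2 := by
    have h1 : l = zz B s₀.1 / zz B s₀.2 := by
      rw [hz s₀ hs₀, mul_div_assoc, div_self (hzne s₀ hs₀).2, mul_one]
    rw [h1]
    refine (H_div _ _ (hzne s₀ hs₀).1 (hzne s₀ hs₀).2).trans ?_
    rw [pow_two]
    exact Nat.mul_le_mul (hHz _ (hF s₀ hs₀).1.1) (hHz _ (hF s₀ hs₀).1.2.1)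
  have hd1 : l.den.divisors.card ≤ Dm := hD _ l.den_nz ((le_max_right _ _).trans hHl)
  have hd2 : l.num.natAbs.divisors.card ≤ Dm :=
    hD _ (by simpa using hl0) ((le_max_left _ _).trans hHl)
  -- the injection
  obtain ⟨G, hG⟩ : ∃ G : (ℚ × ℚ) × (ℚ × ℚ) → (ℕ × ℕ) × (Bool × Bool × Bool), G = fun s =>
    (((zz B s.1).den / Nat.gcd (zz B s.1).den (zz B s.2).den,
      (zz B s.2).den / Nat.gcd (zz B s.1).den (zz B s.2).den),
      (decide (0 < (zz B s.1).num + (zz B s.1).den), decide (0 < (zz B s.2).num + (zz B s.2).den),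
        decide (0 < s.1.2))) := ⟨_, rfl⟩
  have hcard : F.card ≤ ((l.den.divisors ×ˢ l.num.natAbs.divisors) ×ˢ
      (univ : Finset (Bool × Bool × Bool))).card := by
    refine card_le_card_of_injOn G ?_ ?_
    · intro s hs
      have hs' : s ∈ F := hs
      obtain ⟨h1, h2⟩ := dens _ _ _ (hz s hs')
      rw [hG]
      simp only [coe_product, Set.mem_prod, mem_coe, Nat.mem_divisors, mem_univ, and_true]
      exact ⟨⟨h1, l.den_nz⟩, ⟨h2, by simpa using hl0⟩⟩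
    · intro s hs s' hs' hss
      have hsF : s ∈ F := hs
      have hsF' : s' ∈ F := hs'
      obtain ⟨⟨p1, p2, p3, p4⟩, ⟨p5, p6⟩, p7⟩ := hF s hsF
      obtain ⟨⟨q1, q2, q3, q4⟩, ⟨q5, q6⟩, q7⟩ := hF s' hsF'
      rw [hG] at hss
      simp only [Prod.mk.injEq, decide_eq_decide] at hss
      obtain ⟨⟨r1, r2⟩, r3, r4, r5⟩ := hss
      have n1 : (zz B s.1).num + (zz B s.1).den = (zz B s'.1).num + (zz B s'.1).den :=
        int_eq ((h.hN _ p1).trans (h.hN _ q1).symm) (by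
          intro h0; have := h.hN _ p1; rw [h0] at this; simp at this; omega) r3
      have n2 : (zz B s.2).num + (zz B s.2).den = (zz B s'.2).num + (zz B s'.2).den :=
        int_eq ((h.hN _ p2).trans (h.hN _ q2).symm) (by
          intro h0; have := h.hN _ p2; rw [h0] at this; simp at this; omega) r4
      set g := Nat.gcd (zz B s.1).den (zz B s.2).den with hg
      set g' := Nat.gcd (zz B s'.1).den (zz B s'.2).den with hg'
      have gpos : 0 < g := Nat.gcd_pos_of_pos_left _ (Rat.den_pos _)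
      have gpos' : 0 < g' := Nat.gcd_pos_of_pos_left _ (Rat.den_pos _)
      have m1 : g * ((zz B s.1).den / g) = (zz B s.1).den :=
        Nat.mul_div_cancel' (Nat.gcd_dvd_left _ _)
      have m2 : g * ((zz B s.2).den / g) = (zz B s.2).den :=
        Nat.mul_div_cancel' (Nat.gcd_dvd_right _ _)
      have m1' : g' * ((zz B s.1).den / g) = (zz B s'.1).den := by
        rw [r1]; exact Nat.mul_div_cancel' (Nat.gcd_dvd_left _ _)
      have m2' : g' * ((zz B s.2).den / g) = (zz B s'.2).den := by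
        rw [r2]; exact Nat.mul_div_cancel' (Nat.gcd_dvd_right _ _)
      have d1 : 0 < (zz B s.1).den / g := by
        rcases Nat.eq_zero_or_pos ((zz B s.1).den / g) with h0 | h0
        · rw [h0, mul_zero] at m1; exact absurd m1.symm (Rat.den_nz _)
        · exact h0
      have d2 : 0 < (zz B s.2).den / g := by
        rcases Nat.eq_zero_or_pos ((zz B s.2).den / g) with h0 | h0
        · rw [h0, mul_zero] at m2; exact absurd m2.symm (Rat.den_nz _)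
        · exact h0
      have hgg : g = g' := by
        refine gcd_eq ((zz B s.1).num + (zz B s.1).den) ((zz B s.2).num + (zz B s.2).den) g g'
          ((zz B s.1).den / g) ((zz B s.2).den / g) gpos gpos' d1 d2 l hl1 ?_ ?_
        · rw [m1, m2, ← z_eq, ← z_eq]; exact hz s hsF
        · rw [m1', m2', n1, n2, ← z_eq, ← z_eq]; exact hz s' hsF'
      have z1 : zz B s.1 = zz B s'.1 := by
        rw [z_eq (zz B s.1), z_eq (zz B s'.1), n1, ← m1, ← m1', hgg]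
      have z2 : zz B s.2 = zz B s'.2 := by
        rw [z_eq (zz B s.2), z_eq (zz B s'.2), n2, ← m2, ← m2', hgg]
      have t1 : s.1 = s'.1 := pair_eq h hB p1 q1 z1 (p5.trans q5.symm) r5
      have t2 : s.2.2 = s'.2.2 := by
        have e1 : s.1.2 / s.2.2 = s.1.2 / s'.2.2 := by rw [p7, t1, q7]
        have e2 := h.y0 _ p1
        have e3 := h.y0 _ p2
        have e4 := h.y0 _ q2
        field_simp at e1
        exact e1.symm
      have t3 : s.2 = s'.2 := pair_eq h hB p2 q2 z2 (p6.trans q6.symm) (by rw [t2])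
      exact Prod.ext t1 t3
  refine hcard.trans ?_
  rw [card_product, card_product]
  refine Nat.mul_le_mul (Nat.mul_le_mul hd1 hd2) ?_
  simp

/-- the pairs with given numerators -/
theorem fibre2 {B N K X w Dm : ℕ} (hB : 1 ≤ B) (hN1 : 1 ≤ N) (hK : 32 * K ^ 4 ≤ N)
    {T : Finset (ℚ × ℚ)} (h : Cond B N K X w T)
    (hD : ∀ l : ℕ, l ≠ 0 → l ≤ (X * (2 * K) ^ B) ^ 2 → l.divisors.card ≤ Dm) (a₁ a₂ : ℤ)
    (F : Finset ((ℚ × ℚ) × (ℚ × ℚ)))
    (hF : ∀ s ∈ F, (s.1 ∈ T ∧ s.2 ∈ T ∧ s.1.1.den = s.2.1.den ∧ zz B s.1 ≠ zz B s.2) ∧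
      (s.1.1.num = a₁ ∧ s.2.1.num = a₂)) :
    F.card ≤ Dm * Dm * 8 * (2 * B) ^ N.primeFactors.card := by
  classical
  rcases F.eq_empty_or_nonempty with hE | ⟨s₀, hs₀⟩
  · rw [hE, card_empty]; exact Nat.zero_le _
  have : NeZero N := ⟨by omega⟩
  have ha1 : (a₁ : ℚ) ≠ 0 := by
    rw [← (hF s₀ hs₀).2.1]
    exact_mod_cast Rat.num_ne_zero.2 (h.x0 _ (hF s₀ hs₀).1.1)
  have ha2 : (a₂ : ℚ) ≠ 0 := by
    rw [← (hF s₀ hs₀).2.2]
    exact_mod_cast Rat.num_ne_zero.2 (h.x0 _ (hF s₀ hs₀).1.2.1)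
  have h1 : F.card ≤ Dm * Dm * 8 * (F.image fun s => s.1.2 / s.2.2).card := by
    refine card_le_mul_card_image F _ ?_
    intro τ _
    refine fibre hB hN1 h hD a₁ a₂ τ _ ?_
    intro s hs
    rw [mem_filter] at hs
    exact ⟨(hF s hs.1).1, (hF s hs.1).2, hs.2⟩
  refine h1.trans (Nat.mul_le_mul_left _ ?_)
  refine (class_bound B N (2 * K ^ 2) hB (le_of_eq_of_le (by ring) hK) (-((a₁ : ℚ) / a₂))
    (neg_ne_zero.2 (div_ne_zero ha1 ha2)) _ ?_).trans (card_roots B hB N)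
  intro τ hτ
  obtain ⟨s, hs, rfl⟩ := mem_image.1 hτ
  obtain ⟨⟨p1, p2, p3, p4⟩, p5, p6⟩ := hF s hs
  have y1 := h.y0 _ p1
  have y2 := h.y0 _ p2
  have hH : H (s.1.2 / s.2.2) < 2 * (2 * K ^ 2) := by
    have e1 := H_div _ _ y1 y2
    have e2 := h.hy _ p1
    have e3 := h.hy _ p2
    have e4 : H s.1.2 * H s.2.2 < (2 * K) * (2 * K) := Nat.mul_lt_mul'' e2 e3
    have e5 : (2 * K) * (2 * K) = 2 * (2 * K ^ 2) := by ring
    omega
  refine ⟨div_ne_zero y1 y2, (le_max_left _ _).trans_lt hH, (le_max_right _ _).trans_lt hH, ?_⟩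
  have hz : zz B s.1 = ((a₁ : ℚ) / a₂ * (s.1.2 / s.2.2) ^ B) * zz B s.2 :=
    ratio_pt (h.x0 _ p2) y2 p3 p5 p6
  have hdv : ∀ t ∈ T, (N : ℤ) ∣ (zz B t).num + (zz B t).den := fun t ht =>
    Int.natCast_dvd.2 (by rw [h.hN t ht])
  have h2 := ratio_one _ _ _ hz (hdv _ p1) (hdv _ p2)
  rw [neg_mul]
  exact h2

end Pool.Agent.K3h70.PH
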