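import Pool.Agent.K3h70.PH.Root

/-!
# Pairs of points with the same numerator
-/

set_option autoImplicit false

namespace Pool.Agent.K3h70.PH

open Finset Pool.Agent.TH201.PH

theorem H_div (x y : ℚ) (hx : x ≠ 0) (hy : y ≠ 0) : H (x / y) ≤ H x * H y := by
  have h1 := Pool.Agent.H78R2.Phil.num_dvd x y⁻¹ 1
  have h2 := Pool.Agent.H78R2.Phil.den_dvd x y⁻¹ 1
  rw [pow_one, pow_one] at h1 h2
  rw [Rat.num_inv, Int.natAbs_mul, Int.natAbs_natCast, Int.natAbs_sign_of_ne_zero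
    (Rat.num_ne_zero.2 hy), one_mul] at h1
  rw [Rat.den_inv_of_ne_zero hy] at h2
  have hxn : 0 < x.num.natAbs := Int.natAbs_pos.2 (Rat.num_ne_zero.2 hx)
  have hyn : 0 < y.num.natAbs := Int.natAbs_pos.2 (Rat.num_ne_zero.2 hy)
  rw [div_eq_mul_inv]
  refine max_le ?_ ?_
  · exact (Nat.le_of_dvd (Nat.mul_pos hxn y.den_pos) h1).trans
      (Nat.mul_le_mul (le_max_left _ _) (le_max_right _ _))
  · exact (Nat.le_of_dvd (Nat.mul_pos x.den_pos hyn) h2).trans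
      (Nat.mul_le_mul (le_max_right _ _) (le_max_left _ _))

theorem H_mul_pow (x y : ℚ) (hx : x ≠ 0) (hy : y ≠ 0) (B : ℕ) :
    H (x * y ^ B) ≤ H x * H y ^ B := by
  have hxn : 0 < x.num.natAbs := Int.natAbs_pos.2 (Rat.num_ne_zero.2 hx)
  have hyn : 0 < y.num.natAbs := Int.natAbs_pos.2 (Rat.num_ne_zero.2 hy)
  refine max_le ?_ ?_
  · exact (Nat.le_of_dvd (Nat.mul_pos hxn (pow_pos hyn _))
      (Pool.Agent.H78R2.Phil.num_dvd x y B)).trans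
      (Nat.mul_le_mul (le_max_left _ _) (Nat.pow_le_pow_left (le_max_left _ _) B))
  · exact (Nat.le_of_dvd (Nat.mul_pos x.den_pos (pow_pos y.den_pos _))
      (Pool.Agent.H78R2.Phil.den_dvd x y B)).trans
      (Nat.mul_le_mul (le_max_right _ _) (Nat.pow_le_pow_left (le_max_right _ _) B))

theorem cross (z₁ z₂ l : ℚ) (h : z₁ = l * z₂) :
    l.num * (z₁.den * z₂.num) = l.den * (z₁.num * z₂.den) := by
  have e0 : (l.den : ℚ) ≠ 0 := by exact_mod_cast l.den_nz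
  have e1 : (z₁.den : ℚ) ≠ 0 := by exact_mod_cast z₁.den_nz
  have e2 : (z₂.den : ℚ) ≠ 0 := by exact_mod_cast z₂.den_nz
  have h1 : (z₁.num : ℚ) / z₁.den = (l.num : ℚ) / l.den * ((z₂.num : ℚ) / z₂.den) := by
    rw [Rat.num_div_den, Rat.num_div_den, Rat.num_div_den, h]
  field_simp at h1
  have h2 : (l.num : ℚ) * (z₁.den * z₂.num) = l.den * (z₁.num * z₂.den) := by linarith
  exact_mod_cast h2

/-- the ratio of two points is congruent to one -/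
theorem ratio_one {N : ℕ} (z₁ z₂ l : ℚ) (h : z₁ = l * z₂)
    (h1 : (N : ℤ) ∣ z₁.num + z₁.den) (h2 : (N : ℤ) ∣ z₂.num + z₂.den) :
    (N : ℤ) ∣ (-l).num + (-l).den := by
  obtain ⟨e1, u1⟩ := unit_of_dvd z₁ h1
  obtain ⟨e2, u2⟩ := unit_of_dvd z₂ h2
  have h3 := congrArg (Int.cast : ℤ → ZMod N) (cross z₁ z₂ l h)
  push_cast at h3
  rw [e1, e2] at h3
  have h4 : ((-(l.num : ZMod N)) + (l.den : ZMod N)) *
      (((z₁.den : ℕ) : ZMod N) * ((z₂.den : ℕ) : ZMod N)) = 0 := by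
    linear_combination h3
  have h5 := ((u1.mul u2).mul_left_eq_zero).1 h4
  rw [← ZMod.intCast_zmod_eq_zero_iff_dvd, Rat.neg_num, Rat.neg_den]
  push_cast
  exact h5

theorem dens (z₁ z₂ l : ℚ) (h : z₁ = l * z₂) :
    z₁.den / Nat.gcd z₁.den z₂.den ∣ l.den ∧
      z₂.den / Nat.gcd z₁.den z₂.den ∣ l.num.natAbs := by
  have h1 := congrArg Int.natAbs (cross z₁ z₂ l h)
  simp only [Int.natAbs_mul, Int.natAbs_natCast] at h1
  have hg : 0 < Nat.gcd z₁.den z₂.den := Nat.gcd_pos_of_pos_left _ z₁.den_pos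
  set g := Nat.gcd z₁.den z₂.den with hgdef
  obtain ⟨d₁, hd₁⟩ := Nat.gcd_dvd_left z₁.den z₂.den
  obtain ⟨d₂, hd₂⟩ := Nat.gcd_dvd_right z₁.den z₂.den
  rw [← hgdef] at hd₁ hd₂
  have hc : Nat.Coprime d₁ d₂ := by
    have := Nat.coprime_div_gcd_div_gcd (m := z₁.den) (n := z₂.den) hg
    rw [← hgdef] at this
    rwa [hd₁, hd₂, Nat.mul_div_cancel_left _ hg, Nat.mul_div_cancel_left _ hg] at this
  have q1 : z₁.den / g = d₁ := by
    conv_lhs => rw [hd₁]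
    exact Nat.mul_div_cancel_left _ hg
  have q2 : z₂.den / g = d₂ := by
    conv_lhs => rw [hd₂]
    exact Nat.mul_div_cancel_left _ hg
  have c1 : Nat.Coprime d₁ z₁.num.natAbs := by
    refine Nat.Coprime.coprime_dvd_left ⟨g, ?_⟩ z₁.reduced.symm
    rw [hd₁, mul_comm]
  have c2 : Nat.Coprime d₂ z₂.num.natAbs := by
    refine Nat.Coprime.coprime_dvd_left ⟨g, ?_⟩ z₂.reduced.symm
    rw [hd₂, mul_comm]
  have h2 : l.num.natAbs * (d₁ * z₂.num.natAbs) = l.den * (z₁.num.natAbs * d₂) := by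
    have e1 : g * (l.num.natAbs * (d₁ * z₂.num.natAbs)) = g * (l.den * (z₁.num.natAbs * d₂)) := by
      calc g * (l.num.natAbs * (d₁ * z₂.num.natAbs)) =
          l.num.natAbs * (g * d₁ * z₂.num.natAbs) := by ring
        _ = l.num.natAbs * (z₁.den * z₂.num.natAbs) := by rw [← hd₁]
        _ = l.den * (z₁.num.natAbs * z₂.den) := h1
        _ = l.den * (z₁.num.natAbs * (g * d₂)) := by rw [← hd₂]
        _ = _ := by ring
    exact Nat.eq_of_mul_eq_mul_left hg e1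
  rw [q1, q2]
  constructor
  · have e1 : d₁ ∣ l.den * (z₁.num.natAbs * d₂) := by
      rw [← h2]
      exact dvd_mul_of_dvd_right (dvd_mul_right _ _) _
    exact (Nat.Coprime.mul_right c1 hc).dvd_of_dvd_mul_right e1
  · have e1 : d₂ ∣ l.num.natAbs * (d₁ * z₂.num.natAbs) := by
      rw [h2]
      exact dvd_mul_of_dvd_right (dvd_mul_left _ _) _
    exact (Nat.Coprime.mul_right hc.symm c2).dvd_of_dvd_mul_right e1

/-- the denominators are determined by the reduced ones -/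
theorem gcd_eq (n₁ n₂ : ℤ) (g g' d₁ d₂ : ℕ) (hg : 0 < g) (hg' : 0 < g') (h1 : 0 < d₁)
    (h2 : 0 < d₂) (l : ℚ) (hl : l ≠ 1)
    (e : (n₁ : ℚ) / ((g * d₁ : ℕ) : ℚ) - 1 = l * ((n₂ : ℚ) / ((g * d₂ : ℕ) : ℚ) - 1))
    (e' : (n₁ : ℚ) / ((g' * d₁ : ℕ) : ℚ) - 1 = l * ((n₂ : ℚ) / ((g' * d₂ : ℕ) : ℚ) - 1)) :
    g = g' := by
  have a1 : (g : ℚ) ≠ 0 := by exact_mod_cast hg.ne'
  have a2 : (g' : ℚ) ≠ 0 := by exact_mod_cast hg'.ne'
  have a3 : (d₁ : ℚ) ≠ 0 := by exact_mod_cast h1.ne'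
  have a4 : (d₂ : ℚ) ≠ 0 := by exact_mod_cast h2.ne'
  have b : ∀ k : ℕ, (k : ℚ) ≠ 0 →
      (n₁ : ℚ) / ((k * d₁ : ℕ) : ℚ) - 1 = l * ((n₂ : ℚ) / ((k * d₂ : ℕ) : ℚ) - 1) →
      (k : ℚ) * (1 - l) = (n₁ : ℚ) / d₁ - l * (n₂ / d₂) := by
    intro k hk he
    push_cast at he
    field_simp at he ⊢
    linear_combination (-1 : ℚ) * he
  have c : (g : ℚ) * (1 - l) = g' * (1 - l) := (b g a1 e).trans (b g' a2 e').symm
  have d : (g : ℚ) = g' := mul_right_cancel₀ (sub_ne_zero.2 (Ne.symm hl)) c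
  exact_mod_cast d

theorem eq_of_sign {B : ℕ} (hB : 1 ≤ B) (y y' : ℚ) (hy : y ≠ 0) (hy' : y' ≠ 0)
    (h : y ^ B = y' ^ B) (hs : 0 < y ↔ 0 < y') : y = y' := by
  have h1 : |y| ^ B = |y'| ^ B := by rw [← abs_pow, ← abs_pow, h]
  have h2 : |y| = |y'| := (pow_left_inj₀ (abs_nonneg _) (abs_nonneg _) (by omega)).1 h1
  rcases lt_or_gt_of_ne hy with h3 | h3
  · have h4 : ¬ 0 < y' := fun h => absurd (hs.2 h) h3.le.not_gt
    have h5 : y' < 0 := lt_of_le_of_ne (not_lt.1 h4) hy'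
    rw [abs_of_neg h3, abs_of_neg h5] at h2
    exact neg_injective h2
  · rw [abs_of_pos h3, abs_of_pos (hs.1 h3)] at h2
    exact h2

theorem z_eq (z : ℚ) : z = ((z.num + z.den : ℤ) : ℚ) / (z.den : ℚ) - 1 := by
  have e1 : (z.den : ℚ) ≠ 0 := by exact_mod_cast z.den_nz
  have h1 : (z.num : ℚ) / z.den = z := Rat.num_div_den z
  push_cast
  rw [add_div, div_self e1, h1]
  ring

/-- the point -/
def zz (B : ℕ) (t : ℚ × ℚ) : ℚ := t.1 * t.2 ^ B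

/-- the hypotheses for a set of pairs -/
structure Cond (B N K X w : ℕ) (T : Finset (ℚ × ℚ)) : Prop where
  x0 : ∀ t ∈ T, t.1 ≠ 0
  y0 : ∀ t ∈ T, t.2 ≠ 0
  hx : ∀ t ∈ T, H t.1 ≤ X
  hy : ∀ t ∈ T, H t.2 < 2 * K
  hN : ∀ t ∈ T, ((zz B t).num + (zz B t).den).natAbs = N
  hw : ∀ t ∈ T, rt B t.1.den = w

theorem zz_ne {B : ℕ} {t : ℚ × ℚ} (h1 : t.1 ≠ 0) (h2 : t.2 ≠ 0) : zz B t ≠ 0 :=
  mul_ne_zero h1 (pow_ne_zero _ h2)

/-- a pair is determined by the point, the numerator, the root and the sign -/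
theorem pair_eq {B N K X w : ℕ} {T : Finset (ℚ × ℚ)} (h : Cond B N K X w T) (hB : 1 ≤ B)
    {t t' : ℚ × ℚ} (ht : t ∈ T) (ht' : t' ∈ T) (hz : zz B t = zz B t')
    (hn : t.1.num = t'.1.num) (hs : 0 < t.2 ↔ 0 < t'.2) : t = t' := by
  have hx := h.x0 t ht
  have hx' := h.x0 t' ht'
  have hy := h.y0 t ht
  have hy' := h.y0 t' ht'
  have hnn : (t.1.num : ℚ) ≠ 0 := by exact_mod_cast Rat.num_ne_zero.2 hx
  have hd : (t.1.den : ℚ) ≠ 0 := by exact_mod_cast t.1.den_nz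
  have hd' : (t'.1.den : ℚ) ≠ 0 := by exact_mod_cast t'.1.den_nz
  have e1 : t.1 = (t.1.num : ℚ) / t.1.den := (Rat.num_div_den _).symm
  have e2 : t'.1 = (t.1.num : ℚ) / t'.1.den := by rw [hn]; exact (Rat.num_div_den _).symm
  have h1 : (t.2 / t'.2) ^ B * (t'.1.den : ℚ) = t.1.den := by
    unfold zz at hz
    rw [e1, e2] at hz
    have hyB : t'.2 ^ B ≠ 0 := pow_ne_zero _ hy'
    rw [div_pow]
    field_simp at hz ⊢
    linear_combination hz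
  have h2 : t.1.den = t'.1.den := by
    refine eq_of_pow hB t.1.den_pos t'.1.den_pos ?_ (t.2 / t'.2) h1
    rw [h.hw t ht, h.hw t' ht']
  have h3 : t.1 = t'.1 := Rat.ext hn h2
  refine Prod.ext h3 (eq_of_sign hB _ _ hy hy' ?_ hs)
  unfold zz at hz
  rw [← h3] at hz
  exact mul_left_cancel₀ hx hz

end Pool.Agent.K3h70.PH
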