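import Pool.Agent.K3h70.PH.Energy

/-!
# The number of pairs with a given numerator
-/

set_option autoImplicit false

namespace Pool.Agent.K3h70.PH

open Finset Pool.Agent.TH201.PH

/-- the pairs with the same denominator and the same point -/
theorem same {B N K X w : ℕ} (hB : 2 ≤ B) {T : Finset (ℚ × ℚ)} (h : Cond B N K X w T)
    {t : ℚ × ℚ} (_ht : t ∈ T) :
    (T.filter fun t' => t.1.den = t'.1.den ∧ zz B t = zz B t').card ≤ Nat.sqrt X * 4 := by
  classical
  have hcard : (T.filter fun t' => t.1.den = t'.1.den ∧ zz B t = zz B t').card ≤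
      ((Icc 1 (Nat.sqrt X)) ×ˢ (univ : Finset (Bool × Bool))).card := by
    refine card_le_card_of_injOn (fun t' => (rt B t'.1.num.natAbs,
      (decide (0 < t'.1.num), decide (0 < t'.2)))) ?_ ?_
    · intro t' ht'
      have h1 : t' ∈ T := (mem_filter.1 ht').1
      have hn : 1 ≤ t'.1.num.natAbs := by
        have := Rat.num_ne_zero.2 (h.x0 _ h1)
        omega
      simp only [coe_product, Set.mem_prod, mem_coe, mem_Icc, mem_univ, and_true]
      refine ⟨rt_pos hn, ?_⟩
      rw [Nat.le_sqrt, ← pow_two]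
      calc rt B t'.1.num.natAbs ^ 2 ≤ rt B t'.1.num.natAbs ^ B :=
            Nat.pow_le_pow_right (rt_pos hn) hB
        _ ≤ t'.1.num.natAbs := Nat.le_of_dvd hn (rt_dvd _ _)
        _ ≤ H t'.1 := le_max_left _ _
        _ ≤ X := h.hx _ h1
    · intro u hu v hv huv
      obtain ⟨u1, u2, u3⟩ := mem_filter.1 hu
      obtain ⟨v1, v2, v3⟩ := mem_filter.1 hv
      simp only [Prod.mk.injEq, decide_eq_decide] at huv
      obtain ⟨r1, r2, r3⟩ := huv
      have hxu := h.x0 _ u1
      have hxv := h.x0 _ v1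
      have hyu := h.y0 _ u1
      have hyv := h.y0 _ v1
      have hnu : 1 ≤ u.1.num.natAbs := by
        have := Rat.num_ne_zero.2 hxu
        omega
      have hnv : 1 ≤ v.1.num.natAbs := by
        have := Rat.num_ne_zero.2 hxv
        omega
      have hd : u.1.den = v.1.den := u2.symm.trans v2
      have hz : zz B u = zz B v := u3.symm.trans v3
      have e1 : (u.1.num : ℚ) * u.2 ^ B = v.1.num * v.2 ^ B := by
        unfold zz at hz
        have a4 : u.1 * (v.1.den : ℚ) = u.1.num := by rw [← hd]; exact Rat.mul_den_eq_num _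
        have a5 : v.1 * (v.1.den : ℚ) = v.1.num := Rat.mul_den_eq_num _
        rw [← a4, ← a5]
        linear_combination (v.1.den : ℚ) * hz
      have e2 : (|v.2| / |u.2|) ^ B * ((v.1.num.natAbs : ℕ) : ℚ) = ((u.1.num.natAbs : ℕ) : ℚ) := by
        have a1 := congrArg abs e1
        rw [abs_mul, abs_mul, abs_pow, abs_pow] at a1
        have a2 : ((v.1.num.natAbs : ℕ) : ℚ) = |(v.1.num : ℚ)| := by
          rw [Nat.cast_natAbs, Int.cast_abs]
        have a3 : ((u.1.num.natAbs : ℕ) : ℚ) = |(u.1.num : ℚ)| := by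
          rw [Nat.cast_natAbs, Int.cast_abs]
        have a4 : |u.2| ^ B ≠ 0 := pow_ne_zero _ (abs_ne_zero.2 hyu)
        rw [a2, a3, div_pow]
        field_simp
        linear_combination -a1
      have e3 := eq_of_pow (by omega) hnu hnv r1 _ e2
      have e4 : u.1.num = v.1.num := int_eq e3 (Rat.num_ne_zero.2 hxu) r2
      exact pair_eq h (by omega) u1 v1 hz e4 r3
  refine hcard.trans ?_
  rw [card_product, Nat.card_Icc]
  simp

/-- the energy -/
theorem energy {B N K X w Dm : ℕ} (hB : 2 ≤ B) (hN1 : 1 ≤ N) (hK : 32 * K ^ 4 ≤ N)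
    {T : Finset (ℚ × ℚ)} (h : Cond B N K X w T)
    (hD : ∀ l : ℕ, l ≠ 0 → l ≤ (X * (2 * K) ^ B) ^ 2 → l.divisors.card ≤ Dm) :
    ∑ t ∈ T, (T.filter fun t' => t.1.den = t'.1.den).card ≤
      Dm * Dm * 8 * (2 * B) ^ N.primeFactors.card * ((2 * X + 1) * (2 * X + 1)) +
        T.card * (Nat.sqrt X * 4) := by
  classical
  have h1 : ∀ t ∈ T, (T.filter fun t' => t.1.den = t'.1.den).card =
      (T.filter fun t' => t.1.den = t'.1.den ∧ zz B t ≠ zz B t').card +
      (T.filter fun t' => t.1.den = t'.1.den ∧ zz B t = zz B t').card := by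
    intro t _
    rw [← card_union_of_disjoint]
    · congr 1
      ext t'
      simp only [mem_filter, mem_union]
      tauto
    · rw [disjoint_left]
      intro t' h1 h2
      exact (mem_filter.1 h1).2.2 (mem_filter.1 h2).2.2
  rw [sum_congr rfl h1, sum_add_distrib]
  refine Nat.add_le_add ?_ ?_
  · obtain ⟨P, hP⟩ : ∃ P : Finset ((ℚ × ℚ) × (ℚ × ℚ)), P = (T ×ˢ T).filter fun s =>
      s.1.1.den = s.2.1.den ∧ zz B s.1 ≠ zz B s.2 := ⟨_, rfl⟩
    have h2 : ∑ t ∈ T, (T.filter fun t' => t.1.den = t'.1.den ∧ zz B t ≠ zz B t').card = P.card := by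
      rw [hP, card_filter, sum_product]
      refine sum_congr rfl fun t _ => ?_
      rw [card_filter]
    rw [h2]
    have h3 : P.card ≤ Dm * Dm * 8 * (2 * B) ^ N.primeFactors.card *
        ((Icc (-(X : ℤ)) X) ×ˢ (Icc (-(X : ℤ)) X)).card := by
      refine card_le_mul_card_image_of_maps_to (f := fun s => (s.1.1.num, s.2.1.num)) ?_ _ ?_
      · intro s hs
        rw [hP, mem_filter, mem_product] at hs
        have e1 : s.1.1.num.natAbs ≤ X := (le_max_left _ _).trans (h.hx _ hs.1.1)
        have e2 : s.2.1.num.natAbs ≤ X := (le_max_left _ _).trans (h.hx _ hs.1.2)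
        rw [mem_product, mem_Icc, mem_Icc]
        constructor <;> constructor <;> dsimp only <;> omega
      · rintro ⟨a₁, a₂⟩ _
        refine fibre2 (by omega) hN1 hK h hD a₁ a₂ _ ?_
        intro s hs
        rw [mem_filter, hP, mem_filter, mem_product, Prod.mk.injEq] at hs
        exact ⟨⟨hs.1.1.1, hs.1.1.2, hs.1.2.1, hs.1.2.2⟩, hs.2⟩
    refine h3.trans (le_of_eq ?_)
    congr 1
    rw [card_product, Int.card_Icc]
    have e1 : ((X : ℤ) + 1 - -(X : ℤ)).toNat = 2 * X + 1 := by omega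
    rw [e1]
  · calc ∑ t ∈ T, (T.filter fun t' => t.1.den = t'.1.den ∧ zz B t = zz B t').card
        ≤ ∑ _t ∈ T, Nat.sqrt X * 4 := sum_le_sum fun t ht => same hB h ht
      _ = _ := by rw [sum_const, smul_eq_mul]

/-- the inequality of Cauchy and Schwarz -/
theorem cauchy {B N K X w : ℕ} {T : Finset (ℚ × ℚ)} (h : Cond B N K X w T) :
    T.card ^ 2 ≤ (X / w ^ B) * ∑ t ∈ T, (T.filter fun t' => t.1.den = t'.1.den).card := by
  classical
  obtain ⟨I, hI⟩ : ∃ I : Finset ℕ, I = T.image fun t => t.1.den := ⟨_, rfl⟩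
  have h1 : T.card = ∑ d ∈ I, (T.filter fun t => t.1.den = d).card := by
    rw [hI]
    exact card_eq_sum_card_image _ _
  have h2 : ∑ d ∈ I, (T.filter fun t => t.1.den = d).card ^ 2 =
      ∑ t ∈ T, (T.filter fun t' => t.1.den = t'.1.den).card := by
    have e1 : ∑ t ∈ T, (T.filter fun t' => t.1.den = t'.1.den).card =
        ∑ d ∈ I, ∑ t ∈ T.filter (fun t => t.1.den = d), (T.filter fun t' => t.1.den = t'.1.den).card := by
      rw [sum_fiberwise_of_maps_to]
      intro t ht
      rw [hI]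
      exact mem_image_of_mem _ ht
    rw [e1]
    refine sum_congr rfl fun d _ => ?_
    rw [pow_two]
    have e2 : ∀ t ∈ T.filter (fun t => t.1.den = d), (T.filter fun t' => t.1.den = t'.1.den).card =
        (T.filter fun t => t.1.den = d).card := by
      intro t ht
      congr 1
      ext t'
      simp only [mem_filter, (mem_filter.1 ht).2, eq_comm]
    rw [sum_congr rfl e2, sum_const, smul_eq_mul]
  have h3 : I.card ≤ X / w ^ B := by
    rw [← Nat.Ioc_filter_dvd_card_eq_div]
    refine card_le_card ?_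
    intro d hd
    rw [hI, mem_image] at hd
    obtain ⟨t, ht, rfl⟩ := hd
    rw [mem_filter, mem_Ioc]
    refine ⟨⟨t.1.den_pos, (le_max_right _ _).trans (h.hx t ht)⟩, ?_⟩
    have := rt_dvd B t.1.den
    rwa [h.hw t ht] at this
  have h4 := sq_sum_le_card_mul_sum_sq (s := I) (f := fun d => (T.filter fun t => t.1.den = d).card)
  rw [← h1, h2] at h4
  exact h4.trans (Nat.mul_le_mul_right _ h3)

end Pool.Agent.K3h70.PH
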