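import Pool.Agent.K3h70.PH.Dyadic

/-!
# Counting the pairs which violate Philippon's inequality, final form
-/

set_option autoImplicit false

namespace Pool.Agent.K3h70.PH

open Finset Pool.Agent.TH201.PH Pool.Agent.H785R2.ABC

/-- the numerator is large -/
theorem size4 {B : ℕ} (hB : 5 ≤ B) {α β ε : ℝ} (hα : 1 ≤ α) (hβ : 0 ≤ β) (hε : 0 ≤ ε)
    (hεB : 4 ≤ ε * B) {t : ℚ × ℚ} (ht : Bad B α β ε t) : 32 * H t.2 ^ 4 ≤ nn B t := by
  obtain ⟨hx, hy, hN, hf⟩ := ht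
  rw [nn_eq]
  unfold Fail at hf
  set N := (t.1 * t.2 ^ B + 1).num.natAbs with hNdef
  have hN0 : N ≠ 0 := by
    rw [hNdef, Int.natAbs_ne_zero]; exact Rat.num_ne_zero.2 hN
  have hHx : (1 : ℝ) ≤ H t.1 := by exact_mod_cast H_pos t.1
  have hHy : (1 : ℝ) ≤ H t.2 := by exact_mod_cast H_pos t.2
  have hBr : (5 : ℝ) ≤ B := by exact_mod_cast hB
  have ha : 0 ≤ Real.log (H t.1) := Real.log_nonneg hHx
  have hb : 0 ≤ Real.log (H t.2) := Real.log_nonneg hHy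
  have hr1 : (1 : ℝ) ≤ rad N := by exact_mod_cast rad_pos' N
  have hρ0 : 0 ≤ Real.log (rad N) := Real.log_nonneg hr1
  have hlogN : 0 < Real.log N := by
    refine lt_of_le_of_lt ?_ hf
    positivity
  have hNr : (0 : ℝ) < N := by exact_mod_cast Nat.pos_of_ne_zero hN0
  have hN1 : N ≠ 1 := by
    intro h
    rw [h, Nat.cast_one, Real.log_one] at hlogN
    exact lt_irrefl _ hlogN
  have hr2 : (2 : ℝ) ≤ rad N := by
    obtain ⟨p, hp, hpN⟩ := Nat.exists_prime_and_dvd hN1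
    have hpr : p ≤ rad N := by
      unfold rad
      exact Nat.le_of_dvd (Finset.prod_pos fun q hq => (Nat.prime_of_mem_primeFactors hq).pos)
        (Finset.dvd_prod_of_mem _ (Nat.mem_primeFactors.2 ⟨hp, hpN, hN0⟩))
    exact_mod_cast hp.two_le.trans hpr
  have hρ : Real.log 2 ≤ Real.log (rad N) := Real.log_le_log (by norm_num) hr2
  have hl2 : 0 < Real.log 2 := Real.log_pos (by norm_num)
  generalize hadef : Real.log (H t.1) = a at *
  generalize hbdef : Real.log (H t.2) = b at *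
  generalize hρdef : Real.log (rad N) = ρ at *
  have h3 : 5 * Real.log 2 + 4 * b ≤ Real.log N := by
    have e1 : 4 * b ≤ ε * B * b := mul_le_mul_of_nonneg_right hεB hb
    have e2 : 0 ≤ α * B * a := by positivity
    have e3 : 5 ≤ (B : ℝ) * (α * B + ε) := by
      have : 5 ≤ α * B + ε := by nlinarith
      nlinarith
    have e4 : 5 * Real.log 2 ≤ (B : ℝ) * (α * B + ε) * (β + ρ) := by
      have a1 : Real.log 2 ≤ β + ρ := by linarith
      nlinarith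
    linarith
  have h4 : Real.log (32 * (H t.2 : ℝ) ^ 4) ≤ Real.log N := by
    rw [Real.log_mul (by norm_num) (by positivity), Real.log_pow,
      show (32 : ℝ) = 2 ^ 5 by norm_num, Real.log_pow, hbdef]
    push_cast
    linarith
  have h5 : 32 * (H t.2 : ℝ) ^ 4 ≤ N := (Real.log_le_log_iff (by positivity) hNr).1 h4
  exact_mod_cast h5

/-- the sizes in a dyadic block -/
theorem sizes_block {B : ℕ} (hB : 5 ≤ B) {α β ε : ℝ} (hα : 1 ≤ α) (hβ : 0 ≤ β) (hε : 0 ≤ ε)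
    (hεB : 4 ≤ ε * B) {t : ℚ × ℚ} (ht : Bad B α β ε t) {j : ℕ} (hj : Nat.log 2 (H t.2) = j) :
    H t.2 < 2 * 2 ^ j ∧ H t.1 ≤ 2 * 2 ^ j ∧ 32 * (2 ^ j) ^ 4 ≤ nn B t ∧
      (H t.1 : ℝ) ≤ (2 * 2 ^ j : ℝ) ^ (1 / α) / rad (nn B t) ∧
      (rad (nn B t) : ℝ) ≤ (2 * 2 ^ j : ℝ) ^ (1 / (α * B)) ∧
      nn B t ≤ (2 * 2 ^ j) ^ (B + 2) ∧ 1 ≤ nn B t := by
  have h0 := size4 hB hα hβ hε hεB ht
  obtain ⟨hx, hy, hN, hf⟩ := ht
  obtain ⟨-, h2, h3⟩ := sizes B hB α β ε hα hβ hε (by linarith) t.1 t.2 hx hy hN hf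
  rw [← nn_eq] at h2 h3
  have hH := H_pos t.2
  have hKH : 2 ^ j ≤ H t.2 := by rw [← hj]; exact Nat.pow_log_le_self 2 (by omega)
  have hHK : H t.2 < 2 * 2 ^ j := by
    have := Nat.lt_pow_succ_log_self (b := 2) (by norm_num) (H t.2)
    rw [pow_succ, hj] at this
    omega
  have hHr : (1 : ℝ) ≤ H t.2 := by exact_mod_cast hH
  have hHKr : (H t.2 : ℝ) ≤ 2 * 2 ^ j := by exact_mod_cast hHK.le
  have hr1 : (1 : ℝ) ≤ rad (nn B t) := by exact_mod_cast rad_pos' _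
  have hα0 : 0 < α := by linarith
  have h4 : (H t.1 : ℝ) ≤ H t.2 := by
    calc (H t.1 : ℝ) ≤ (H t.1 : ℝ) * rad (nn B t) := le_mul_of_one_le_right (Nat.cast_nonneg _) hr1
      _ ≤ (H t.2 : ℝ) ^ (1 / α) := h2
      _ ≤ (H t.2 : ℝ) ^ (1 : ℝ) := by
          apply Real.rpow_le_rpow_of_exponent_le hHr
          rw [div_le_one hα0]
          exact hα
      _ = H t.2 := Real.rpow_one _
  have h5 : H t.1 ≤ 2 * 2 ^ j := by
    have : H t.1 ≤ H t.2 := by exact_mod_cast h4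
    omega
  refine ⟨hHK, h5, ?_, ?_, ?_, ?_, ?_⟩
  · exact (Nat.mul_le_mul_left 32 (Nat.pow_le_pow_left hKH 4)).trans h0
  · rw [le_div_iff₀ (by linarith)]
    exact h2.trans (Real.rpow_le_rpow (by linarith) hHKr (by positivity))
  · exact h3.trans (Real.rpow_le_rpow (by linarith) hHKr (by positivity))
  · have e1 := num_le t.1 t.2 hx hy B
    rw [← nn_eq] at e1
    calc nn B t ≤ 2 * (H t.1 * H t.2 ^ B) := e1
      _ ≤ 2 * ((2 * 2 ^ j) * (2 * 2 ^ j) ^ B) :=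
          Nat.mul_le_mul_left _ (Nat.mul_le_mul h5 (Nat.pow_le_pow_left hHK.le B))
      _ ≤ (2 * 2 ^ j) * ((2 * 2 ^ j) * (2 * 2 ^ j) ^ B) := by
          apply Nat.mul_le_mul_right
          have : 1 ≤ 2 ^ j := Nat.one_le_two_pow
          omega
      _ = (2 * 2 ^ j) ^ (B + 2) := by ring
  · have : 1 ≤ H t.2 ^ 4 := Nat.one_le_pow _ _ hH
    omega

/-- summation over the dyadic blocks -/
theorem dyadic_sum {s E : ℝ} (hs : 0 < s) (hE : 0 ≤ E) {Y : ℝ} (hY : 1 ≤ Y) (T : Finset (ℚ × ℚ))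
    (hT : ∀ t ∈ T, (H t.2 : ℝ) ≤ Y)
    (hb : ∀ j : ℕ, ((T.filter fun t => Nat.log 2 (H t.2) = j).card : ℝ) ≤
      E * (2 * 2 ^ j : ℝ) ^ s) :
    (T.card : ℝ) ≤ E * ((2 : ℝ) ^ s * ((2 : ℝ) ^ s / ((2 : ℝ) ^ s - 1))) * Y ^ s := by
  classical
  have h2s : 1 < (2 : ℝ) ^ s := Real.one_lt_rpow (by norm_num) hs
  set J := Nat.log 2 ⌊Y⌋₊ with hJ
  have hfl : 1 ≤ ⌊Y⌋₊ := Nat.le_floor (by exact_mod_cast hY)
  have hJY : (2 : ℝ) ^ J ≤ Y := by
    have h1 : 2 ^ J ≤ ⌊Y⌋₊ := Nat.pow_log_le_self 2 (by omega)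
    have h2 : ((2 ^ J : ℕ) : ℝ) ≤ (⌊Y⌋₊ : ℝ) := by exact_mod_cast h1
    push_cast at h2
    exact h2.trans (Nat.floor_le (by linarith))
  have h1 : T.card = ∑ j ∈ range (J + 1), (T.filter fun t => Nat.log 2 (H t.2) = j).card := by
    apply Finset.card_eq_sum_card_fiberwise
    intro t ht
    have h2 : H t.2 ≤ ⌊Y⌋₊ := Nat.le_floor (hT t ht)
    simp only [Finset.mem_coe, Finset.mem_range]
    exact Nat.lt_succ_of_le (Nat.log_mono_right h2)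
  have h3 : ∑ j ∈ range (J + 1), ((2 : ℝ) ^ s) ^ j ≤ (2 : ℝ) ^ s / ((2 : ℝ) ^ s - 1) * Y ^ s := by
    rw [geom_sum_eq h2s.ne']
    have hpos : 0 < (2 : ℝ) ^ s - 1 := by linarith
    have e1 : ((2 : ℝ) ^ s) ^ (J + 1) ≤ (2 : ℝ) ^ s * Y ^ s := by
      rw [pow_succ, mul_comm]
      apply mul_le_mul_of_nonneg_left _ (by positivity)
      rw [← Real.rpow_natCast ((2 : ℝ) ^ s) J, ← Real.rpow_mul (by norm_num), mul_comm s,
        Real.rpow_mul (by norm_num), Real.rpow_natCast]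
      exact Real.rpow_le_rpow (by positivity) hJY hs.le
    rw [div_mul_eq_mul_div]
    apply div_le_div_of_nonneg_right _ hpos.le
    linarith
  have h4 : ∀ j : ℕ, (2 * 2 ^ j : ℝ) ^ s = (2 : ℝ) ^ s * ((2 : ℝ) ^ s) ^ j := by
    intro j
    rw [Real.mul_rpow (by norm_num) (by positivity), ← Real.rpow_natCast ((2 : ℝ) ^ s) j,
      ← Real.rpow_mul (by norm_num), mul_comm s, Real.rpow_mul (by norm_num), Real.rpow_natCast]
  rw [h1]
  push_cast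
  calc ∑ j ∈ range (J + 1), ((T.filter fun t => Nat.log 2 (H t.2) = j).card : ℝ)
      ≤ ∑ j ∈ range (J + 1), E * ((2 : ℝ) ^ s * ((2 : ℝ) ^ s) ^ j) :=
        Finset.sum_le_sum fun j _ => (hb j).trans (le_of_eq (by rw [h4]))
    _ = E * (2 : ℝ) ^ s * ∑ j ∈ range (J + 1), ((2 : ℝ) ^ s) ^ j := by
        rw [Finset.mul_sum]
        refine sum_congr rfl fun j _ => ?_
        ring
    _ ≤ E * (2 : ℝ) ^ s * ((2 : ℝ) ^ s / ((2 : ℝ) ^ s - 1) * Y ^ s) :=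
        mul_le_mul_of_nonneg_left h3 (by positivity)
    _ = _ := by ring

/-- the first bound -/
theorem count1 (B : ℕ) (hB : 5 ≤ B) (α β ε δ : ℝ) (hα : 1 ≤ α) (hβ : 0 ≤ β) (hε : 0 ≤ ε)
    (hεB : 4 ≤ ε * B) (hδ : 0 < δ) : ∃ C : ℝ, 0 < C ∧ ∀ (Y : ℝ) (T : Finset (ℚ × ℚ)), 1 ≤ Y →
      (∀ t ∈ T, Bad B α β ε t ∧ (H t.2 : ℝ) ≤ Y) →
      (T.card : ℝ) ≤ C * Y ^ (3 / (2 * α) + δ) := by
  classical
  have hα0 : 0 < α := by linarith
  have hBr : (5 : ℝ) ≤ B := by exact_mod_cast hB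
  obtain ⟨D, hD, hdy⟩ := dy B (by omega) (δ / 2) (by positivity)
  obtain ⟨D₃, hD₃, h3⟩ := stmtA3_of stmtA2 (δ / (2 * (B + 2))) (by positivity)
  obtain ⟨s, hs⟩ : ∃ s : ℝ, s = 3 / (2 * α) + δ := ⟨_, rfl⟩
  have hs0 : 0 < s := by rw [hs]; positivity
  have h2s : 1 < (2 : ℝ) ^ s := Real.one_lt_rpow (by norm_num) hs0
  have h2s' : 0 < (2 : ℝ) ^ s - 1 := by linarith
  refine ⟨D * D₃ * ((2 : ℝ) ^ s * ((2 : ℝ) ^ s / ((2 : ℝ) ^ s - 1))), by positivity,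
    fun Y T hY hT => ?_⟩
  rw [← hs]
  refine dyadic_sum hs0 (by positivity) hY T (fun t ht => (hT t ht).2) fun j => ?_
  obtain ⟨T', hT'⟩ : ∃ T' : Finset (ℚ × ℚ), T' = T.filter fun t => Nat.log 2 (H t.2) = j :=
    ⟨_, rfl⟩
  rw [← hT']
  have hmem : ∀ t ∈ T', Bad B α β ε t ∧ Nat.log 2 (H t.2) = j := by
    intro t ht
    rw [hT', mem_filter] at ht
    exact ⟨(hT t ht.1).1, ht.2⟩
  obtain ⟨M, hM⟩ : ∃ M : ℝ, M = 2 * 2 ^ j := ⟨_, rfl⟩
  have hM0 : 0 < M := by rw [hM]; positivity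
  have hb := hdy (2 ^ j) (fun n => M ^ (1 / α) / rad n) T' Nat.one_le_two_pow (by
    intro t ht
    obtain ⟨g1, g2⟩ := hmem t ht
    obtain ⟨k1, k2, k3, k4, -⟩ := sizes_block hB hα hβ hε hεB g1 g2
    refine ⟨g1.1, g1.2.1, k1, k2, k3, ?_⟩
    rw [hM]
    exact k4)
  have hcast : ((2 : ℝ) * ((2 ^ j : ℕ) : ℝ)) = M := by rw [hM]; push_cast; rfl
  rw [hcast] at hb
  have hZ : ∑ N ∈ T'.image (nn B), (1 : ℝ) / (rad N : ℝ) ≤ D₃ * M ^ (δ / 2) := by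
    have e1 : T'.image (nn B) ⊆ (Icc 1 ((2 * 2 ^ j) ^ (B + 2))).filter (fun d => 1 ∣ rad d) := by
      intro N hN
      obtain ⟨t, ht, rfl⟩ := mem_image.1 hN
      obtain ⟨g1, g2⟩ := hmem t ht
      obtain ⟨-, -, -, -, -, k6, k7⟩ := sizes_block hB hα hβ hε hεB g1 g2
      rw [mem_filter, mem_Icc]
      exact ⟨⟨k7, k6⟩, one_dvd _⟩
    refine (sum_le_sum_of_subset_of_nonneg e1 fun _ _ _ => by positivity).trans ?_
    refine (h3 ((2 * 2 ^ j) ^ (B + 2)) (Nat.one_le_pow _ _ (by positivity)) 1 le_rfl).trans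
      (le_of_eq ?_)
    rw [Nat.cast_one, div_one]
    congr 1
    push_cast
    rw [← hM, ← Real.rpow_natCast, ← Real.rpow_mul hM0.le]
    congr 1
    push_cast
    field_simp
  have hS : ∑ N ∈ T'.image (nn B), Real.sqrt (M ^ (1 / α) / rad N) ^ 3 ≤
      M ^ (3 / (2 * α)) * (D₃ * M ^ (δ / 2)) := by
    calc ∑ N ∈ T'.image (nn B), Real.sqrt (M ^ (1 / α) / rad N) ^ 3
        ≤ ∑ N ∈ T'.image (nn B), M ^ (3 / (2 * α)) * ((1 : ℝ) / (rad N : ℝ)) := by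
          refine sum_le_sum fun N _ => ?_
          have hr : (1 : ℝ) ≤ rad N := by exact_mod_cast rad_pos' N
          have e1 : Real.sqrt (M ^ (1 / α)) ^ 3 = M ^ (3 / (2 * α)) := by
            rw [Real.sqrt_eq_rpow, ← Real.rpow_natCast, ← Real.rpow_mul (by positivity),
              ← Real.rpow_mul hM0.le]
            congr 1
            push_cast
            field_simp
          rw [Real.sqrt_div (by positivity), div_pow, e1, mul_one_div]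
          apply div_le_div_of_nonneg_left (by positivity) (by linarith)
          have e2 : 1 ≤ Real.sqrt (rad N) := Real.one_le_sqrt.2 hr
          have e3 : Real.sqrt (rad N) ^ 2 = rad N := Real.sq_sqrt (by linarith)
          calc (rad N : ℝ) = Real.sqrt (rad N) ^ 2 := e3.symm
            _ ≤ Real.sqrt (rad N) ^ 3 := pow_le_pow_right₀ e2 (by norm_num)
      _ = M ^ (3 / (2 * α)) * ∑ N ∈ T'.image (nn B), (1 : ℝ) / (rad N : ℝ) := by rw [mul_sum]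
      _ ≤ _ := mul_le_mul_of_nonneg_left hZ (by positivity)
  calc (T'.card : ℝ) ≤ D * M ^ (δ / 2) *
      ∑ N ∈ T'.image (nn B), Real.sqrt (M ^ (1 / α) / rad N) ^ 3 := hb
    _ ≤ D * M ^ (δ / 2) * (M ^ (3 / (2 * α)) * (D₃ * M ^ (δ / 2))) :=
        mul_le_mul_of_nonneg_left hS (by positivity)
    _ = D * D₃ * (M ^ (3 / (2 * α)) * (M ^ (δ / 2) * M ^ (δ / 2))) := by ring
    _ = D * D₃ * M ^ s := by
        rw [← Real.rpow_add hM0, ← Real.rpow_add hM0, hs]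
        congr 2
        ring
    _ = _ := by rw [hM]

/-- the second bound -/
theorem count2 (B : ℕ) (hB : 5 ≤ B) (α β ε δ : ℝ) (hα : 1 ≤ α) (hβ : 0 ≤ β) (hε : 0 ≤ ε)
    (hεB : 4 ≤ ε * B) (hδ : 0 < δ) : ∃ C : ℝ, 0 < C ∧ ∀ (X Y : ℝ) (T : Finset (ℚ × ℚ)), 1 ≤ X →
      1 ≤ Y → (∀ t ∈ T, Bad B α β ε t ∧ (H t.1 : ℝ) ≤ X ∧ (H t.2 : ℝ) ≤ Y) →
      (T.card : ℝ) ≤ C * X ^ ((3 : ℝ) / 2) * Y ^ (1 / (α * B) + δ) := by
  classical
  have hα0 : 0 < α := by linarith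
  have hBr : (5 : ℝ) ≤ B := by exact_mod_cast hB
  have hB0 : (0 : ℝ) < B := by linarith
  obtain ⟨D, hD, hdy⟩ := dy B (by omega) (δ / 2) (by positivity)
  obtain ⟨D₄, hD₄, h4⟩ := stmtA4_of (stmtA3_of stmtA2) (δ / (2 * (B + 2))) (by positivity)
  obtain ⟨s, hs⟩ : ∃ s : ℝ, s = 1 / (α * B) + δ := ⟨_, rfl⟩
  have hs0 : 0 < s := by rw [hs]; positivity
  have h2s : 1 < (2 : ℝ) ^ s := Real.one_lt_rpow (by norm_num) hs0
  have h2s' : 0 < (2 : ℝ) ^ s - 1 := by linarith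
  refine ⟨D * D₄ * ((2 : ℝ) ^ s * ((2 : ℝ) ^ s / ((2 : ℝ) ^ s - 1))), by positivity,
    fun X Y T hX hY hT => ?_⟩
  rw [← hs]
  have hmain : (T.card : ℝ) ≤ (D * D₄ * X ^ ((3 : ℝ) / 2)) *
      ((2 : ℝ) ^ s * ((2 : ℝ) ^ s / ((2 : ℝ) ^ s - 1))) * Y ^ s := by
    refine dyadic_sum hs0 (by positivity) hY T (fun t ht => (hT t ht).2.2) fun j => ?_
    obtain ⟨T', hT'⟩ : ∃ T' : Finset (ℚ × ℚ), T' = T.filter fun t => Nat.log 2 (H t.2) = j :=
      ⟨_, rfl⟩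
    rw [← hT']
    have hmem : ∀ t ∈ T', (Bad B α β ε t ∧ (H t.1 : ℝ) ≤ X) ∧ Nat.log 2 (H t.2) = j := by
      intro t ht
      rw [hT', mem_filter] at ht
      exact ⟨⟨(hT t ht.1).1, (hT t ht.1).2.1⟩, ht.2⟩
    obtain ⟨M, hM⟩ : ∃ M : ℝ, M = 2 * 2 ^ j := ⟨_, rfl⟩
    have hM0 : 0 < M := by rw [hM]; positivity
    have hb := hdy (2 ^ j) (fun _ => X) T' Nat.one_le_two_pow (by
      intro t ht
      obtain ⟨⟨g1, g3⟩, g2⟩ := hmem t ht
      obtain ⟨k1, k2, k3, -⟩ := sizes_block hB hα hβ hε hεB g1 g2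
      exact ⟨g1.1, g1.2.1, k1, k2, k3, g3⟩)
    have hcast : ((2 : ℝ) * ((2 ^ j : ℕ) : ℝ)) = M := by rw [hM]; push_cast; rfl
    rw [hcast, sum_const, nsmul_eq_mul] at hb
    have hZ : ((T'.image (nn B)).card : ℝ) ≤ D₄ * M ^ (δ / 2) * M ^ (1 / (α * B)) := by
      have e1 : T'.image (nn B) ⊆ (Icc 1 ((2 * 2 ^ j) ^ (B + 2))).filter
          (fun d => (rad d : ℝ) ≤ M ^ (1 / (α * B))) := by
        intro N hN
        obtain ⟨t, ht, rfl⟩ := mem_image.1 hN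
        obtain ⟨⟨g1, -⟩, g2⟩ := hmem t ht
        obtain ⟨-, -, -, -, k5, k6, k7⟩ := sizes_block hB hα hβ hε hεB g1 g2
        rw [mem_filter, mem_Icc]
        refine ⟨⟨k7, k6⟩, ?_⟩
        rw [hM]
        exact k5
      have e2 : ((T'.image (nn B)).card : ℝ) ≤ (((Icc 1 ((2 * 2 ^ j) ^ (B + 2))).filter
          (fun d => (rad d : ℝ) ≤ M ^ (1 / (α * B)))).card : ℝ) := by
        exact_mod_cast card_le_card e1
      refine e2.trans ?_
      refine (h4 ((2 * 2 ^ j) ^ (B + 2)) (Nat.one_le_pow _ _ (by positivity)) _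
        (by positivity)).trans (le_of_eq ?_)
      congr 2
      push_cast
      rw [← hM, ← Real.rpow_natCast, ← Real.rpow_mul hM0.le]
      congr 1
      push_cast
      field_simp
    have hX3 : Real.sqrt X ^ 3 = X ^ ((3 : ℝ) / 2) := by
      rw [Real.sqrt_eq_rpow, ← Real.rpow_natCast, ← Real.rpow_mul (by linarith)]
      congr 1
      push_cast
      norm_num
    rw [hX3] at hb
    calc (T'.card : ℝ) ≤ D * M ^ (δ / 2) * (((T'.image (nn B)).card : ℝ) * X ^ ((3 : ℝ) / 2)) := hb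
      _ ≤ D * M ^ (δ / 2) * ((D₄ * M ^ (δ / 2) * M ^ (1 / (α * B))) * X ^ ((3 : ℝ) / 2)) := by
          apply mul_le_mul_of_nonneg_left _ (by positivity)
          exact mul_le_mul_of_nonneg_right hZ (by positivity)
      _ = D * D₄ * X ^ ((3 : ℝ) / 2) * (M ^ (1 / (α * B)) * (M ^ (δ / 2) * M ^ (δ / 2))) := by ring
      _ = D * D₄ * X ^ ((3 : ℝ) / 2) * M ^ s := by
          rw [← Real.rpow_add hM0, ← Real.rpow_add hM0, hs]
          congr 2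
          ring
      _ = _ := by rw [hM]
  refine hmain.trans (le_of_eq ?_)
  ring

end Pool.Agent.K3h70.PH
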