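import Pool.Agent.TH201.PH.Size

/-!
# The number of rational numbers of bounded height, a lower bound
-/

set_option autoImplicit false

namespace Pool.Agent.K3h70.PH

open Finset Pool.Agent.TH201.PH

theorem coprime_pairs (n : ℕ) (hn : 1 ≤ n) :
    (n : ℝ) ^ 2 / 4 ≤
      (((Icc 1 n ×ˢ Icc 1 n).filter fun p => Nat.gcd p.1 p.2 = 1).card : ℝ) := by
  classical
  have h1 : (Icc 1 n ×ˢ Icc 1 n).card =
      ∑ g ∈ Icc 1 n, ((Icc 1 n ×ˢ Icc 1 n).filter fun p => Nat.gcd p.1 p.2 = g).card := by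
    apply card_eq_sum_card_fiberwise
    intro p hp
    have hp' := mem_product.1 (mem_coe.1 hp)
    rw [mem_Icc, mem_Icc] at hp'
    exact mem_coe.2 (mem_Icc.2 ⟨Nat.gcd_pos_of_pos_left _ hp'.1.1,
      (Nat.gcd_le_left _ hp'.1.1).trans hp'.1.2⟩)
  have h2 : ∀ g ∈ Ioc 1 n, (((Icc 1 n ×ˢ Icc 1 n).filter fun p => Nat.gcd p.1 p.2 = g).card : ℝ) ≤
      (n : ℝ) ^ 2 * ((g : ℝ) ^ 2)⁻¹ := by
    intro g hg
    have hg0 : 0 < g := by rw [mem_Ioc] at hg; omega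
    have e1 : ((Icc 1 n ×ˢ Icc 1 n).filter fun p => Nat.gcd p.1 p.2 = g).card ≤
        (Icc 1 (n / g) ×ˢ Icc 1 (n / g)).card := by
      refine card_le_card_of_injOn (fun p => (p.1 / g, p.2 / g)) ?_ ?_
      · intro p hp
        rw [mem_coe, mem_filter, mem_product, mem_Icc, mem_Icc] at hp
        obtain ⟨⟨⟨a1, a2⟩, a3, a4⟩, a5⟩ := hp
        have b1 : g ∣ p.1 := a5 ▸ Nat.gcd_dvd_left _ _
        have b2 : g ∣ p.2 := a5 ▸ Nat.gcd_dvd_right _ _
        rw [mem_coe, mem_product, mem_Icc, mem_Icc]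
        exact ⟨⟨Nat.div_pos (Nat.le_of_dvd a1 b1) hg0, Nat.div_le_div_right a2⟩,
          Nat.div_pos (Nat.le_of_dvd a3 b2) hg0, Nat.div_le_div_right a4⟩
      · intro p hp p' hp' hpp
        rw [mem_coe, mem_filter] at hp hp'
        have b1 : g ∣ p.1 := hp.2 ▸ Nat.gcd_dvd_left _ _
        have b2 : g ∣ p.2 := hp.2 ▸ Nat.gcd_dvd_right _ _
        have b3 : g ∣ p'.1 := hp'.2 ▸ Nat.gcd_dvd_left _ _
        have b4 : g ∣ p'.2 := hp'.2 ▸ Nat.gcd_dvd_right _ _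
        simp only [Prod.mk.injEq] at hpp
        refine Prod.ext ?_ ?_
        · rw [← Nat.mul_div_cancel' b1, hpp.1, Nat.mul_div_cancel' b3]
        · rw [← Nat.mul_div_cancel' b2, hpp.2, Nat.mul_div_cancel' b4]
    rw [card_product, Nat.card_Icc, Nat.add_sub_cancel] at e1
    have e2 : ((n / g : ℕ) : ℝ) ≤ (n : ℝ) / g := Nat.cast_div_le
    calc (((Icc 1 n ×ˢ Icc 1 n).filter fun p => Nat.gcd p.1 p.2 = g).card : ℝ)
        ≤ ((n / g : ℕ) : ℝ) * ((n / g : ℕ) : ℝ) := by exact_mod_cast e1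
      _ ≤ ((n : ℝ) / g) * ((n : ℝ) / g) := mul_le_mul e2 e2 (Nat.cast_nonneg _) (by positivity)
      _ = _ := by
          have : (g : ℝ) ≠ 0 := by exact_mod_cast hg0.ne'
          field_simp
  have h3 : Icc 1 n = insert 1 (Ioc 1 n) := by
    ext w
    simp only [mem_Icc, mem_insert, mem_Ioc]
    omega
  rw [card_product, Nat.card_Icc, Nat.add_sub_cancel] at h1
  have h4 : (n : ℝ) * n = ∑ g ∈ Icc 1 n,
      (((Icc 1 n ×ˢ Icc 1 n).filter fun p => Nat.gcd p.1 p.2 = g).card : ℝ) := by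
    exact_mod_cast h1
  rw [show ∑ g ∈ Icc 1 n, (((Icc 1 n ×ˢ Icc 1 n).filter fun p => Nat.gcd p.1 p.2 = g).card : ℝ) =
    ∑ g ∈ insert 1 (Ioc 1 n),
      (((Icc 1 n ×ˢ Icc 1 n).filter fun p => Nat.gcd p.1 p.2 = g).card : ℝ) by rw [← h3],
    sum_insert (by simp)] at h4
  have h5 : ∑ g ∈ Ioc 1 n, ((g : ℝ) ^ 2)⁻¹ ≤ 3 / 4 := by
    rcases Nat.lt_or_ge 1 n with h | h
    · have e1 : Ioc 1 n = insert 2 (Ioc 2 n) := by
        ext w
        simp only [mem_insert, mem_Ioc]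
        omega
      rw [e1, sum_insert (by simp)]
      have e2 := sum_Ioc_inv_sq_le_sub (α := ℝ) (k := 2) (n := n) two_ne_zero h
      have e3 : (0 : ℝ) ≤ (n : ℝ)⁻¹ := by positivity
      push_cast at e2 ⊢
      linarith
    · rw [Ioc_eq_empty (by omega)]
      norm_num
  have h6 : ∑ g ∈ Ioc 1 n, (((Icc 1 n ×ˢ Icc 1 n).filter fun p => Nat.gcd p.1 p.2 = g).card : ℝ) ≤
      (n : ℝ) ^ 2 * (3 / 4) := by
    refine (sum_le_sum h2).trans ?_
    rw [← mul_sum]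
    exact mul_le_mul_of_nonneg_left h5 (by positivity)
  nlinarith

theorem finite_height (X : ℝ) : {x : ℚ | x ≠ 0 ∧ (H x : ℝ) ≤ X}.Finite := by
  by_contra hinf
  obtain ⟨T, hT, hcard⟩ := Set.Infinite.exists_subset_card_eq hinf (3 * ⌊X⌋₊ ^ 2 + 1)
  have h1 := card_height ⌊X⌋₊ T (fun x hx => Nat.le_floor (hT hx).2)
  omega

/-- there are at least `X ^ 2 / 16` rational numbers of height at most `X` -/
theorem many_rationals (X : ℝ) (hX : 1 ≤ X) :
    X ^ 2 / 16 ≤ (({x : ℚ | x ≠ 0 ∧ (H x : ℝ) ≤ X}.ncard : ℕ) : ℝ) := by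
  classical
  obtain ⟨n, hn⟩ : ∃ n : ℕ, n = ⌊X⌋₊ := ⟨_, rfl⟩
  have hn1 : 1 ≤ n := by rw [hn]; exact Nat.le_floor (by exact_mod_cast hX)
  have hnX : (n : ℝ) ≤ X := by rw [hn]; exact Nat.floor_le (by linarith)
  have hnX2 : X ≤ 2 * n := by
    have h1 : X < n + 1 := by rw [hn]; exact Nat.lt_floor_add_one X
    have h2 : (1 : ℝ) ≤ n := by exact_mod_cast hn1
    linarith
  have h1 := coprime_pairs n hn1
  have h2 : ((Icc 1 n ×ˢ Icc 1 n).filter fun p => Nat.gcd p.1 p.2 = 1).card ≤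
      {x : ℚ | x ≠ 0 ∧ (H x : ℝ) ≤ X}.ncard := by
    rw [Set.ncard_eq_toFinset_card _ (finite_height X)]
    refine card_le_card_of_injOn (fun p : ℕ × ℕ => ((p.1 : ℤ) : ℚ) / ((p.2 : ℤ) : ℚ)) ?_ ?_
    · intro p hp
      rw [mem_coe, mem_filter, mem_product, mem_Icc, mem_Icc] at hp
      obtain ⟨⟨⟨a1, a2⟩, a3, a4⟩, a5⟩ := hp
      have hc : Nat.Coprime (p.1 : ℤ).natAbs (p.2 : ℤ).natAbs := by
        rw [Int.natAbs_natCast, Int.natAbs_natCast]
        exact a5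
      have b1 := Rat.num_div_eq_of_coprime (a := (p.1 : ℤ)) (b := (p.2 : ℤ)) (by omega) hc
      have b2 := Rat.den_div_eq_of_coprime (a := (p.1 : ℤ)) (b := (p.2 : ℤ)) (by omega) hc
      rw [mem_coe, Set.Finite.mem_toFinset]
      constructor
      · apply div_ne_zero
        · exact_mod_cast (by omega : p.1 ≠ 0)
        · exact_mod_cast (by omega : p.2 ≠ 0)
      · have b3 : H (((p.1 : ℤ) : ℚ) / ((p.2 : ℤ) : ℚ)) ≤ n := by
          unfold H
          rw [b1]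
          refine max_le ?_ ?_
          · rw [Int.natAbs_natCast]; exact a2
          · have : (((p.1 : ℤ) : ℚ) / ((p.2 : ℤ) : ℚ)).den = p.2 := by exact_mod_cast b2
            rw [this]; exact a4
        have b4 : ((H (((p.1 : ℤ) : ℚ) / ((p.2 : ℤ) : ℚ)) : ℕ) : ℝ) ≤ n := by exact_mod_cast b3
        exact b4.trans hnX
    · intro p hp q hq hpq
      rw [mem_coe, mem_filter, mem_product, mem_Icc, mem_Icc] at hp hq
      have hc : Nat.Coprime (p.1 : ℤ).natAbs (p.2 : ℤ).natAbs := by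
        rw [Int.natAbs_natCast, Int.natAbs_natCast]
        exact hp.2
      have hc' : Nat.Coprime (q.1 : ℤ).natAbs (q.2 : ℤ).natAbs := by
        rw [Int.natAbs_natCast, Int.natAbs_natCast]
        exact hq.2
      have b1 := Rat.num_div_eq_of_coprime (a := (p.1 : ℤ)) (b := (p.2 : ℤ)) (by omega) hc
      have b2 := Rat.den_div_eq_of_coprime (a := (p.1 : ℤ)) (b := (p.2 : ℤ)) (by omega) hc
      have c1 := Rat.num_div_eq_of_coprime (a := (q.1 : ℤ)) (b := (q.2 : ℤ)) (by omega) hc'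
      have c2 := Rat.den_div_eq_of_coprime (a := (q.1 : ℤ)) (b := (q.2 : ℤ)) (by omega) hc'
      simp only at hpq
      rw [hpq] at b1 b2
      refine Prod.ext ?_ ?_
      · have : (p.1 : ℤ) = q.1 := b1.symm.trans c1
        exact_mod_cast this
      · have : (p.2 : ℤ) = q.2 := b2.symm.trans c2
        exact_mod_cast this
  have h3 : (((Icc 1 n ×ˢ Icc 1 n).filter fun p => Nat.gcd p.1 p.2 = 1).card : ℝ) ≤
      (({x : ℚ | x ≠ 0 ∧ (H x : ℝ) ≤ X}.ncard : ℕ) : ℝ) := by exact_mod_cast h2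
  refine le_trans ?_ (h1.trans h3)
  nlinarith

end Pool.Agent.K3h70.PH
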