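import Pool.Agent.TH201.PH.Size
import Pool.Agent.TH201.PH.Classes

/-!
# The largest power dividing an integer
-/

set_option autoImplicit false

namespace Pool.Agent.K3h70.PH

open Finset

/-- the root of the largest `B`-th power which divides `n` -/
def rt (B n : ℕ) : ℕ := Nat.findGreatest (fun w => w ^ B ∣ n) n

theorem rt_dvd (B n : ℕ) : rt B n ^ B ∣ n := by
  unfold rt
  rcases n.eq_zero_or_pos with h | h
  · subst h; exact dvd_zero _
  · exact Nat.findGreatest_spec (P := fun w => w ^ B ∣ n) (m := 1) h (by simp)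

theorem rt_pos {B n : ℕ} (hn : 1 ≤ n) : 1 ≤ rt B n :=
  Nat.le_findGreatest (P := fun w => w ^ B ∣ n) hn (by simp)

theorem rt_free {B n q : ℕ} (hB : 1 ≤ B) (hn : 1 ≤ n) (h : (q * rt B n) ^ B ∣ n) : q ≤ 1 := by
  have h1 : q * rt B n ≤ n := (Nat.le_self_pow (by omega) _).trans (Nat.le_of_dvd hn h)
  have h2 : q * rt B n ≤ rt B n := Nat.le_findGreatest (P := fun w => w ^ B ∣ n) h1 h
  have h3 := rt_pos (B := B) hn
  by_contra hq
  push Not at hq
  nlinarith

theorem eq_of_pow {B n n' : ℕ} (hB : 1 ≤ B) (hn : 1 ≤ n) (hn' : 1 ≤ n') (hw : rt B n = rt B n')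
    (r : ℚ) (h : r ^ B * n' = n) : n = n' := by
  obtain ⟨m, hm⟩ := rt_dvd B n
  obtain ⟨m', hm'⟩ := rt_dvd B n'
  have hw1 := rt_pos (B := B) hn
  have hwB : 0 < rt B n ^ B := pow_pos hw1 _
  have hr : r ≠ 0 := by
    rintro rfl
    rw [zero_pow (by omega), zero_mul] at h
    have : n = 0 := by exact_mod_cast h.symm
    omega
  -- the equation in integers
  have h1 : r.num.natAbs ^ B * n' = r.den ^ B * n := by
    have e1 : ((r.num : ℚ) / r.den) ^ B * n' = n := by rw [Rat.num_div_den, h]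
    have e2 : (r.den : ℚ) ≠ 0 := by exact_mod_cast r.den_nz
    rw [div_pow, div_mul_eq_mul_div, div_eq_iff (pow_ne_zero _ e2)] at e1
    have e3 : r.num ^ B * (n' : ℤ) = n * (r.den : ℤ) ^ B := by exact_mod_cast e1
    have e4 := congrArg Int.natAbs e3
    rw [Int.natAbs_mul, Int.natAbs_mul, Int.natAbs_pow, Int.natAbs_pow, Int.natAbs_natCast,
      Int.natAbs_natCast, Int.natAbs_natCast] at e4
    rw [e4, mul_comm]
  have h2 : r.num.natAbs ^ B * m' = r.den ^ B * m := by
    rw [← hw] at hm'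
    have e1 : rt B n ^ B * (r.num.natAbs ^ B * m') = rt B n ^ B * (r.den ^ B * m) := by
      calc rt B n ^ B * (r.num.natAbs ^ B * m') = r.num.natAbs ^ B * (rt B n ^ B * m') := by ring
        _ = r.num.natAbs ^ B * n' := by rw [← hm']
        _ = r.den ^ B * n := h1
        _ = r.den ^ B * (rt B n ^ B * m) := by rw [← hm]
        _ = _ := by ring
    exact Nat.eq_of_mul_eq_mul_left hwB e1
  have hc : Nat.Coprime (r.num.natAbs ^ B) (r.den ^ B) := Nat.Coprime.pow _ _ r.reduced
  have h3 : r.den ^ B ∣ m' := by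
    have : r.den ^ B ∣ r.num.natAbs ^ B * m' := h2 ▸ dvd_mul_right _ _
    exact hc.symm.dvd_of_dvd_mul_left this
  have h4 : r.num.natAbs ^ B ∣ m := by
    have : r.num.natAbs ^ B ∣ r.den ^ B * m := h2 ▸ dvd_mul_right _ _
    exact hc.dvd_of_dvd_mul_left this
  have h5 : r.den ≤ 1 := by
    apply rt_free hB hn'
    rw [mul_pow]
    conv_rhs => rw [hm', mul_comm]
    exact mul_dvd_mul_right h3 _
  have h6 : r.num.natAbs ≤ 1 := by
    apply rt_free hB hn
    rw [mul_pow]
    conv_rhs => rw [hm, mul_comm]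
    exact mul_dvd_mul_right h4 _
  have h7 : r.den = 1 := by have := r.den_pos; omega
  have h8 : r.num.natAbs = 1 := by
    have : r.num.natAbs ≠ 0 := by simpa using hr
    omega
  rw [h7, h8, one_pow, one_mul, one_mul] at h1
  exact h1.symm

end Pool.Agent.K3h70.PH
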